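import Mathlib
import Pool.Agent.N848.Sch.C
import Pool.Agent.D0H50.JL.Exc
import Pool.Agent.D0H43.L3.Supp
import Pool.Agent.D0H43.L3.Chi

/-!
# Project SC: cubic characters of `ℚ(ω)` with local conditions, for all the cube-free `D`

Adapted from the file `N848/Sch/C.lean` of helper848.  The condition at the place above three gives two
linear conditions on the exponents.
-/

set_option autoImplicit false
set_option linter.unusedSectionVars false
set_option linter.unusedVariables false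

namespace Pool.Agent.D0H50.SC

open Pool.Agent.Y692.QS
open Pool.Agent.Y715.T.Gi Pool.Agent.Y715.T.Nr Pool.Agent.Y715.T.Red Pool.Agent.Y715.T.Df
open Pool.Agent.Y715.T.Thr Pool.Agent.Y715.T.Sel
open Pool.Agent.Y715.T.Rec (cs)
open Pool.Agent.Y715.T.RecG (Pq)
open Pool.Agent.N848.Sch
open Pool.Agent.N883.FF (nq)
open Pool.Agent.D0H43.L3 (yq)
open Pool.Agent.D0H43.L3.Chi (yq_mul yq_congr)

variable {i₀ : QB} {hi : i₀ ^ 2 + i₀ + 1 = 0}

/-- an element `1` modulo `3` that is a cube at the place above three is `1` modulo `9` -/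
theorem nine_of {z : Ei} (h3 : (3 : Ei) ∣ z - 1) {ψ : GK i₀ → ZMod 3} (hz : Kc hi z ψ)
    (ι₃ : QB →ₐ[ℚ] PadicAlgCl 3)
    (h : ∀ (τ : Au 3) (σ : GK i₀), Cmp ι₃ τ σ → ψ σ = 0) : (9 : Ei) ∣ z - 1 := by
  by_contra h9
  obtain ⟨τ, σ, hc, hσ⟩ := exists_three h3 h9 hz ι₃
  exact hσ (h τ σ hc)

section sums

variable {J : Type} {π : J → Ei}

lemma prm_prod (h : ∀ j, Pq (π j)) (x : J → ℕ) (S : Finset J) :
    Pool.Agent.Y699.E.prm (∏ j ∈ S, π j ^ x j) := by
  classical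
  induction S using Finset.induction_on with
  | empty =>
    rw [Finset.prod_empty]
    exact Pool.Agent.Y699.E.prm_one
  | insert i S his ih =>
    rw [Finset.prod_insert his]
    refine Pool.Agent.Y699.E.prm_mul ?_ ih
    have h4 := sub_dvd_pow_sub_pow (π i) 1 (x i)
    rw [one_pow] at h4
    exact dvd_trans (h i).three h4

lemma prm_pow {a : Ei} (h : Pool.Agent.Y699.E.prm a) (n : ℕ) : Pool.Agent.Y699.E.prm (a ^ n) := by
  have h4 := sub_dvd_pow_sub_pow a 1 n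
  rw [one_pow] at h4
  exact dvd_trans h h4

lemma add_pow {f : Ei → ZMod 3} (h1 : f 1 = 0)
    (hmul : ∀ a b, Pool.Agent.Y699.E.prm a → Pool.Agent.Y699.E.prm b → f (a * b) = f a + f b)
    {a : Ei} (ha : Pool.Agent.Y699.E.prm a) (n : ℕ) : f (a ^ n) = n * f a := by
  induction n with
  | zero => rw [pow_zero, h1, Nat.cast_zero, zero_mul]
  | succ n ih =>
    rw [pow_succ, hmul _ _ (prm_pow ha n) ha, ih]
    push_cast
    ring

lemma add_prod {f : Ei → ZMod 3} (h1 : f 1 = 0)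
    (hmul : ∀ a b, Pool.Agent.Y699.E.prm a → Pool.Agent.Y699.E.prm b → f (a * b) = f a + f b)
    (h : ∀ j, Pq (π j)) (x : J → ℕ) (S : Finset J) :
    f (∏ j ∈ S, π j ^ x j) = ∑ j ∈ S, x j * f (π j) := by
  classical
  induction S using Finset.induction_on with
  | empty => rw [Finset.prod_empty, Finset.sum_empty, h1]
  | insert i S his ih =>
    rw [Finset.prod_insert his, Finset.sum_insert his,
      hmul _ _ (prm_pow (h i).three _) (prm_prod h x S), ih, add_pow h1 hmul (h i).three]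

lemma nq_prod (h : ∀ j, Pq (π j)) (x : J → ℕ) (S : Finset J) :
    nq (∏ j ∈ S, π j ^ x j) = ∑ j ∈ S, x j * nq (π j) :=
  add_prod (by decide) (fun _ _ ha hb => Pool.Agent.N883.FF.Den3.nq_mul ha hb) h x S

lemma yq_prod (h : ∀ j, Pq (π j)) (x : J → ℕ) (S : Finset J) :
    yq (∏ j ∈ S, π j ^ x j) = ∑ j ∈ S, x j * yq (π j) :=
  add_prod Pool.Agent.D0H50.JL.yq_one' (fun _ _ ha hb => yq_mul (Pool.Agent.D0H50.JL.cop_prm ha)
    (Pool.Agent.D0H50.JL.cop_prm hb)) h x S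

/-- the sums of an element that is `1` modulo `9` -/
lemma sums_of [Fintype J] (h : ∀ j, Pq (π j)) {x : J → ℕ} (h9 : (9 : Ei) ∣ ∏ j, π j ^ x j - 1) :
    ∑ j, (x j : ZMod 3) * nq (π j) = 0 ∧ ∑ j, (x j : ZMod 3) * yq (π j) = 0 := by
  rw [← nq_prod h x, ← yq_prod h x]
  constructor
  · rw [Pool.Agent.N883.FF.Den3.nq_per h9 (prm_prod h x _)]
    decide
  · rw [Pool.Agent.D0H50.JL.yq_per h9]
    exact Pool.Agent.D0H50.JL.yq_one'

end sums

/-! ### The main lemma -/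

section main

variable {J : Type} [Fintype J] [DecidableEq J] {π : J → Ei} {e : J → ZMod 3}

/-- only the trivial vector satisfies the conditions at the primes and the two conditions above three -/
def KerS (q : J → ZMod 3) (π : J → Ei) (e : J → ZMod 3) : Prop :=
  ∀ v : J → ZMod 3, (∀ j, ∑ k, e k * cs (π j) (π k) * (v k - v j) = q j * v j) →
    ∑ k, e k * v k * nq (π k) = 0 → ∑ k, e k * v k * yq (π k) = 0 → ∀ j, v j = 0

/-- **Cubic characters with local conditions are trivial.** -/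
theorem kfin2 (hπ : PP π) (he : ∀ j, e j ≠ 0) {D u₀ : Ei} (hD : D = u₀ * ∏ j, π j ^ (e j).val)
    (hu0 : u₀ ≠ 0) (hu₀ : ∀ j, ¬ π j ∣ u₀) (hker : KerS (fun j => cs (π j) u₀) π e)
    {χ : GK i₀ → ZMod 3} (hχ : Kc hi D χ)
    {ψ : GK i₀ → ZMod 3} (hlc : IsLocallyConstant ψ) (hm : ∀ σ τ, ψ (σ * τ) = ψ σ + ψ τ)
    (h1 : ∀ (p : ℕ) [Fact p.Prime] (ι : QB →ₐ[ℚ] PadicAlgCl p), p ≠ 3 →
      (∀ j, ¬ ‖ι (ev i₀ hi (π j))‖ < 1) → ∀ (τ : Au p) (σ : GK i₀), Cmp ι τ σ → Inert τ → ψ σ = 0)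
    (h2 : ∀ (j : J) (p : ℕ) [Fact p.Prime] (ι : QB →ₐ[ℚ] PadicAlgCl p), p ≠ 3 →
      ‖ι (ev i₀ hi (π j))‖ < 1 → ∃ t : ZMod 3, ∀ (τ : Au p) (σ : GK i₀), Cmp ι τ σ →
        ψ σ = t * χ σ)
    (ι₃ : QB →ₐ[ℚ] PadicAlgCl 3)
    (h3 : ∀ (τ : Au 3) (σ : GK i₀), Cmp ι₃ τ σ → ψ σ = 0) (σ : GK i₀) :
    ψ σ = 0 := by
  obtain ⟨z, hz, hzh⟩ := kum hi ψ hlc hm
  have hsupp : ∀ ρ : Ei, Prime ρ → ρ ∣ z → Associated ρ lam ∨ ∃ j, Associated ρ (π j) := by
    intro ρ hρ hd
    by_contra hcon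
    push Not at hcon
    obtain ⟨p, hp, ι, hl⟩ := exists_emb hi hρ
    have hp3 := odd_of hi ι hρ hl hcon.1
    refine not_dvd_of_unr hz hzh hp3 ι hρ hl (h1 p ι hp3 fun j hj => hcon.2 j ?_) hd
    rw [iota_ev] at hl hj
    exact (hρ.dvd_prime_iff_associated (hπ.pq j).prime).1
      ((dvd_iff (iota_sq hi ι) hρ hl _).2 hj)
  obtain ⟨u, g, x, hu, ez⟩ := fac (π := π) z hz.1 hsupp
  have h0 : ∀ f : J → ℕ, ∏ j, π j ^ f j ≠ 0 := fun f =>
    Finset.prod_ne_zero_iff.2 fun j _ => pow_ne_zero _ (hπ.p0 j)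
  -- the place above three
  obtain ⟨q, hq⟩ := hπ.prod_form x
  have hq' : ∏ j, π j ^ x j = 1 + 3 * q := by rw [← hq]; ring
  have hx : Kc hi (∏ j, π j ^ x j) ψ := by
    obtain ⟨s, hs⟩ := ex_root (ev i₀ hi z)
    have hv : ι₃ s ∈ Lf (ι₃ i₀) := by
      intro τ _ hτI
      obtain ⟨σ, hc⟩ := exists_cmp ι₃ τ hτI
      rw [hc, hzh s hs σ, h3 τ σ hc, ZMod.val_zero, pow_zero, one_mul]
    obtain ⟨⟨g', hg'⟩, hu1⟩ := gen (iota_sq hi ι₃) hu hv (z := 0) (by rw [norm_zero]; exact zero_le_one)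
      (zero_mem _) (q := q) (g := g) (by
        rw [mul_zero, add_zero, mul_one, ← map_pow, hs, iota_ev, ez, hq'])
    refine kc_unit (h0 x) hu1 (kc_cancel (z' := lam ^ g') ?_ (pow_ne_zero _ prime_lam.ne_zero) ?_)
    · exact mul_ne_zero hu.ne_zero (h0 x)
    · have e1 : u * (∏ j, π j ^ x j) * (lam ^ g') ^ 3 = u * lam ^ g * ∏ j, π j ^ x j := by
        rw [hg', ← pow_mul, mul_comm g' 3]
        ring
      rw [e1, ← ez]
      exact hzh
  obtain ⟨hsn, hsy⟩ := sums_of hπ.pq (nine_of (hπ.prod_form x) hx ι₃ h3)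
  have hesq : ∀ j, e j * e j = 1 := by
    intro j
    have h := he j
    generalize e j = c at *
    revert c
    decide
  set v : J → ZMod 3 := fun j => x j * e j with hv
  have hxv : ∀ j, (x j : ZMod 3) = e j * v j := by
    intro j
    have := hesq j
    calc (x j : ZMod 3) = x j * (e j * e j) := by rw [this, mul_one]
      _ = _ := by rw [hv]; ring
  have hD0 : D ≠ 0 := by
    rw [hD]
    exact mul_ne_zero hu0 (h0 _)
  have heq : ∀ j, ∑ i, e i * cs (π j) (π i) * (v i - v j) = cs (π j) u₀ * v j := by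
    intro j
    obtain ⟨p, hp, ι, hl⟩ := exists_emb hi (hπ.pq j).prime
    have hp3 := odd_of hi ι (hπ.pq j).prime hl (pq_not_assoc (hπ.pq j))
    obtain ⟨t, ht⟩ := h2 j p ι hp3 hl
    obtain ⟨τ₁, σ₁, c, hc₁, hτ₁, hc0, hs₁⟩ := exists_ram (hπ.pq j).prime hp3 ι hl
    have hpj := (hπ.pq j).prime
    have split : ∀ f : J → ℕ, ∏ i, π i ^ f i =
        (∏ i ∈ Finset.univ.erase j, π i ^ f i) * π j ^ f j := fun f => by
      rw [← Finset.mul_prod_erase Finset.univ (fun i => π i ^ f i) (Finset.mem_univ j)]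
      ring
    have hψ₁ : ψ σ₁ = x j * c := by
      refine ram_exp' (hπ.pq j).prime (hπ.not_dvd_prod j x) ?_ hp3 ι hl hc₁ hτ₁ hs₁
      rw [← split]
      exact hx
    have hχ₁ : χ σ₁ = e j * c := by
      have := ram_exp' (x := (e j).val) (hπ.pq j).prime
        (w := u₀ * ∏ i ∈ Finset.univ.erase j, π i ^ (e i).val)
        (fun h => (hpj.dvd_or_dvd h).elim (hu₀ j) (hπ.not_dvd_prod j (fun j => (e j).val))) (by
          rw [mul_assoc, ← split (fun j => (e j).val), ← hD]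
          exact hχ) hp3 ι hl hc₁ hτ₁ hs₁
      rw [this, ZMod.natCast_zmod_val]
    have htv : t = v j := by
      have h5 := ht τ₁ σ₁ hc₁
      rw [hψ₁, hχ₁] at h5
      have h6 := hesq j
      have h7 : (x j : ZMod 3) = t * e j := by
        have h8 : ∀ a b d : ZMod 3, d ≠ 0 → a * d = b * d → a = b := by decide
        exact h8 _ _ c hc0 (by rw [h5]; ring)
      rw [hv]
      show t = x j * e j
      rw [h7, mul_assoc, h6, mul_one]
    -- the character that is trivial at `π j`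
    set n : ℕ := (-v j).val with hn
    have hn3 : (n : ZMod 3) = -v j := ZMod.natCast_zmod_val _
    have hy := kc_mul (h0 x) (pow_ne_zero n hD0) hx (kc_pow hD0 hχ n)
    have hy1 : ∀ (τ : Au p) (σ : GK i₀), Cmp ι τ σ → ψ σ + n * χ σ = 0 := by
      intro τ σ hcc
      rw [ht τ σ hcc, htv, hn3]
      ring
    set y : J → ℕ := fun i => x i + (e i).val * n with hydef
    have ey : (∏ i, π i ^ x i) * D ^ n = u₀ ^ n * ∏ i, π i ^ y i := by
      rw [hD, mul_pow, ← Finset.prod_pow, mul_left_comm, ← Finset.prod_mul_distrib]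
      congr 1
      refine Finset.prod_congr rfl fun i _ => ?_
      rw [← pow_mul, ← pow_add]
    rw [ey] at hy
    have hycast : ∀ i, (y i : ZMod 3) = e i * (v i - v j) := by
      intro i
      rw [hydef]
      push_cast
      rw [hn3, hxv i, ZMod.natCast_zmod_val]
      ring
    obtain ⟨l, hl3⟩ : 3 ∣ y j := by
      rw [← ZMod.natCast_eq_zero_iff, hycast j, sub_self, mul_zero]
    have hW0 : u₀ ^ n * ∏ i ∈ Finset.univ.erase j, π i ^ y i ≠ 0 :=
      mul_ne_zero (pow_ne_zero n hu0)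
        (Finset.prod_ne_zero_iff.2 fun i _ => pow_ne_zero _ (hπ.p0 i))
    have hW : Kc hi (u₀ ^ n * ∏ i ∈ Finset.univ.erase j, π i ^ y i)
        (fun σ => ψ σ + n * χ σ) := by
      refine kc_cancel (z' := π j ^ l) hW0 (pow_ne_zero _ (hπ.p0 j)) ?_
      have e1 : (u₀ ^ n * ∏ i ∈ Finset.univ.erase j, π i ^ y i) * (π j ^ l) ^ 3 =
          u₀ ^ n * ∏ i, π i ^ y i := by
        rw [split, ← pow_mul, mul_comm l 3, ← hl3]
        ring
      rw [e1]
      exact hy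
    have hcube := resid_kc hW hp3 ι (hπ.pq j).prime hl hy1
    have hnd := hπ.not_dvd_prod j y
    have hndu : ¬ π j ∣ u₀ ^ n := fun h => hu₀ j (hpj.dvd_of_dvd_pow h)
    have hndu' : ¬ π j ∣ u₀ ^ n * ∏ i ∈ Finset.univ.erase j, π i ^ y i :=
      fun h => (hpj.dvd_or_dvd h).elim hndu hnd
    have h9 := (hπ.pq j).norm
    have hcs := (Pool.Agent.Y715.T.RecG.cs_zero_iff hpj h9 hndu').2 hcube
    have hnd1 : ∀ i ∈ Finset.univ.erase j, ¬ π j ∣ π i := fun i hij =>
      hπ.nd i j (Finset.ne_of_mem_erase hij)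
    rw [Pool.Agent.Y715.T.RecG.cs_mul hpj h9 hndu hnd,
      Pool.Agent.Y715.T.RecG.cs_pow hpj h9 (hu₀ j),
      Pool.Agent.Y715.T.RecG.cs_prod hpj h9 _ _
      (fun i hij h1 => hnd1 i hij (hpj.dvd_of_dvd_pow h1)), hn3] at hcs
    rw [← Finset.add_sum_erase Finset.univ _ (Finset.mem_univ j), sub_self, mul_zero, zero_add]
    have e2 : ∑ i ∈ Finset.univ.erase j, e i * cs (π j) (π i) * (v i - v j) =
        ∑ i ∈ Finset.univ.erase j, cs (π j) (π i ^ y i) := by
      refine Finset.sum_congr rfl fun i hij => ?_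
      rw [Pool.Agent.Y715.T.RecG.cs_pow hpj h9 (hnd1 i hij), hycast i]
      ring
    rw [e2]
    linear_combination hcs
  have hv0 := hker v heq (by
    rw [← hsn]
    exact Finset.sum_congr rfl fun j _ => by rw [hxv]) (by
    rw [← hsy]
    exact Finset.sum_congr rfl fun j _ => by rw [hxv])
  -- conclusion
  have h5 : Kc hi (∏ j, π j ^ (0 : ℕ)) ψ := by
    refine kc_exp hπ.p0 (fun j => ?_) hx
    rw [hxv j, hv0 j, mul_zero, Nat.cast_zero]
  simp only [pow_zero, Finset.prod_const_one] at h5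
  exact kc_uniq one_ne_zero h5 kc_one σ

end main

end Pool.Agent.D0H50.SC
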