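import Pool.Agent.D0H50.JL.Cnd
import Pool.Agent.D0H50.JL.BoxC

/-!
# Project SC: the conditions
-/

set_option autoImplicit false
set_option linter.unusedVariables false

open scoped Classical

namespace Pool.Agent.D0H50.SC

open Finset
open Pool.Agent.Y692.QS (Ei w nr toC)
open Pool.Agent.Y715.T.Rec (cs)
open Pool.Agent.R419.KF (wt)
open Pool.Agent.N883.FF (nq)
open Pool.Agent.D0H43.L3 (yq)
open Pool.Agent.D0H50.JL (qG)

/-- all solutions of the system with the potential `q`, the border `g` and the corner `t` are zero -/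
def GdX (q g : Ei → ZMod 3) (t : ZMod 3) (M S : Finset Ei) : Prop :=
  ∀ (v : Ei → ZMod 3) (a : ZMod 3),
    (∀ π ∈ S, ∑ ρ ∈ S, wt M ρ * cs π ρ * (v ρ - v π) + a * g π = q π * v π) →
    ∑ ρ ∈ S, wt M ρ * v ρ * g ρ = t * a → (∀ π ∈ S, v π = 0) ∧ a = 0

/-- all solutions of the system without potential, with the border `g` and the corner `t` are
constant -/
def GdY (g : Ei → ZMod 3) (t : ZMod 3) (M S : Finset Ei) : Prop :=
  ∀ (v : Ei → ZMod 3) (a : ZMod 3),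
    (∀ π ∈ S, ∑ ρ ∈ S, wt M ρ * cs π ρ * (v ρ - v π) + a * g π = 0) →
    ∑ ρ ∈ S, wt M ρ * v ρ * g ρ + a * t = 0 →
    (∀ π ∈ S, ∀ ρ ∈ S, v π = v ρ) ∧ a = 0

/-- the class of the element -/
def Fny (N Y : ZMod 3) (M S : Finset Ei) : Prop :=
  ∑ π ∈ S, wt M π * nq π = N ∧ ∑ π ∈ S, wt M π * yq π = Y

/-- only zero satisfies the conditions at the primes and the two conditions above three -/
def GdS (q : Ei → ZMod 3) (M S : Finset Ei) : Prop :=
  ∀ v : Ei → ZMod 3, (∀ π ∈ S, ∑ ρ ∈ S, wt M ρ * cs π ρ * (v ρ - v π) = q π * v π) →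
    ∑ ρ ∈ S, wt M ρ * v ρ * nq ρ = 0 → ∑ ρ ∈ S, wt M ρ * v ρ * yq ρ = 0 → ∀ π ∈ S, v π = 0

end Pool.Agent.D0H50.SC
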