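import Pool.Agent.D0H50.SC.G

/-!
# Project SC: the vanishing theorem for fields

Adapted from the file `N848/Sch/M.lean` of helper848.
-/

set_option autoImplicit false
set_option linter.unusedSectionVars false
set_option linter.unusedVariables false

namespace Pool.Agent.D0H50.SC

open Pool.Agent.Y692.QS
open Pool.Agent.Y715.T.Gi Pool.Agent.Y715.T.Nr Pool.Agent.Y715.T.Red Pool.Agent.Y715.T.Df
open Pool.Agent.Y715.T.Sel
open Pool.Agent.Y715.T.Rec (cs)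
open Pool.Agent.Y715.T.RecG (Pq)
open Pool.Agent.N848.Sch

variable {i₀ : QB}

/-- units at the places prime to three -/
def Un3 (hi : i₀ ^ 2 + i₀ + 1 = 0) (u₀ : Ei) : Prop :=
  ∀ (p : ℕ) [Fact p.Prime] (ι : QB →ₐ[ℚ] PadicAlgCl p), p ≠ 3 → ‖ι (ev i₀ hi u₀)‖ = 1

/-- **The vanishing theorem for fields.** -/
theorem van_field {hi : i₀ ^ 2 + i₀ + 1 = 0} {H : Subgroup (GK i₀)} {k : ℕ} {D u₀ : Ei}
    {a : GK i₀ → ZMod (3 ^ (k + 1))} (hdat : Dat hi H k D a)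
    {J : Type} [Fintype J] [DecidableEq J] {π : J → Ei} {e : J → ZMod 3}
    (hπ : PP π) (he : ∀ j, e j ≠ 0) (hD : D = u₀ * ∏ j, π j ^ (e j).val)
    (hu0 : u₀ ≠ 0) (hu₀ : ∀ j, ¬ π j ∣ u₀) (hu3 : Un3 hi u₀)
    (hker : KerS (fun j => cs (π j) u₀) π e)
    (HU : ∀ (p : ℕ) [Fact p.Prime] (ι : QB →ₐ[ℚ] PadicAlgCl p), p ≠ 3 →
      ¬ ‖ι (ev i₀ hi D)‖ < 1 → ∀ (τ : Au p) (σ : GK i₀), Cmp ι τ σ → Inert τ →
        σ ∈ H) {r : ℤ} (hr : r ≠ 0) {c : H → ℤ_[3]}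
    (hcc : Continuous c)
    (hct : ∀ (σ τ : H), c (σ * τ) = c σ +
      (((cyc i₀ (σ : GK i₀)) ^ r : ℤ_[3]ˣ) : ℤ_[3]) * c τ)
    (H1 : ∀ (p : ℕ) [Fact p.Prime] (ι : QB →ₐ[ℚ] PadicAlgCl p), p ≠ 3 →
      ∀ (τ : Au p) (σ : H), Cmp ι τ (σ : GK i₀) → Inert τ → c σ = 0)
    (H3 : ∀ (ι : QB →ₐ[ℚ] PadicAlgCl 3), ∃ y : ℤ_[3], ∀ (τ : Au 3) (σ : H),
      Cmp ι τ (σ : GK i₀) → c σ = ((((cyc i₀ (σ : GK i₀)) ^ r : ℤ_[3]ˣ) : ℤ_[3]) - 1) * y) :
    ∃ y : ℤ_[3], ∀ σ : H,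
      c σ = ((((cyc i₀ (σ : GK i₀)) ^ r : ℤ_[3]ˣ) : ℤ_[3]) - 1) * y := by
  classical
  obtain ⟨ζ, hζ⟩ := HasEnoughRootsOfUnity.exists_primitiveRoot QB (3 ^ (k + 1))
  obtain ⟨ι₀⟩ := exists_emb3
  have hζ' : IsPrimitiveRoot (ι₀ ζ) (3 ^ (k + 1)) := hζ.map_of_injective ι₀.injective
  obtain ⟨t, ht⟩ := hdat.sur
  set c' : GK i₀ → ℤ_[3] := fun σ => if h : σ ∈ H then c ⟨σ, h⟩ else 0 with hc'
  have hval : ∀ (σ : H), c' (σ : GK i₀) = c σ := by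
    intro σ
    rw [hc']
    exact dif_pos σ.2
  have hval' : ∀ (σ : GK i₀) (h : σ ∈ H), c' σ = c ⟨σ, h⟩ := by
    intro σ h
    rw [hc']
    exact dif_pos h
  have hclop : IsClopen (H : Set (GK i₀)) := by
    have e1 : (H : Set (GK i₀)) = a ⁻¹' {0} := by
      ext σ
      exact (hdat.ker σ).symm
    rw [e1]
    exact hdat.lc.isClopen_fiber 0
  have hcont : Continuous c' := by
    rw [← continuousOn_univ, ← Set.union_compl_self (H : Set (GK i₀))]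
    refine ContinuousOn.union_of_isOpen ?_ ?_ hclop.isOpen hclop.compl.isOpen
    · rw [continuousOn_iff_continuous_domRestrict]
      have e : (↑H : Set (GK i₀)).domRestrict c' = fun σ => c σ := by
        funext σ
        exact hval σ
      rw [e]
      exact hcc
    · refine (continuousOn_const (c := (0 : ℤ_[3]))).congr fun σ hσ => ?_
      rw [hc']
      exact dif_neg hσ
  obtain ⟨y, hy⟩ := vanish (ct := fun g => om (c' g)) hi hζ' hdat.mul hdat.lc ht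
    (fun σ τ hσ hτ => by
      have hσ' := (hdat.ker σ).1 hσ
      have hτ' := (hdat.ker τ).1 hτ
      show om (c' (σ * τ)) = om (c' σ) + E r σ * om (c' τ)
      rw [hval' σ hσ', hval' τ hτ', hval' (σ * τ) (mul_mem hσ' hτ')]
      have := hct ⟨σ, hσ'⟩ ⟨τ, hτ'⟩
      have e1 : (⟨σ * τ, mul_mem hσ' hτ'⟩ : H) = ⟨σ, hσ'⟩ * ⟨τ, hτ'⟩ := rfl
      rw [e1, this, om_add, om_mul]
      rfl)
    (om_cont.comp hcont) (fun g => om_mem _ _)
    (fun p _ ι hp τ σ hc hin hσ => by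
      show om (c' σ) = 0
      rw [hval' σ ((hdat.ker σ).1 hσ), H1 p ι hp τ ⟨σ, (hdat.ker σ).1 hσ⟩ hc hin, om_zero])
    (fun ι => by
      obtain ⟨y, hy⟩ := H3 ι
      refine ⟨y, fun τ σ hc hσ => ?_⟩
      show om (c' σ) = _
      rw [hval' σ ((hdat.ker σ).1 hσ), hy τ ⟨σ, (hdat.ker σ).1 hσ⟩ hc, om_mul, om_sub, om_one]
      rfl) hr hπ he hD hu0 hu₀ hker hdat.kc
    (fun p _ ι hp hnd τ σ hc hin => (hdat.ker σ).2 (HU p ι hp (fun hlt => by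
      rw [hD, map_mul, map_mul, norm_mul, hu3 p ι hp, one_mul, map_prod, map_prod, norm_prod] at hlt
      have h1 : ∀ j, ‖ι (ev i₀ hi (π j ^ (e j).val))‖ = 1 := by
        intro j
        have h2 : ‖ι (ev i₀ hi (π j))‖ = 1 := by
          have := hnd j
          rw [iota_ev] at this ⊢
          exact eq_one_of_not_lt (iota_sq hi ι) this
        rw [map_pow, map_pow, norm_pow, h2, one_pow]
      rw [Finset.prod_congr rfl fun j _ => h1 j, Finset.prod_const_one] at hlt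
      exact lt_irrefl _ hlt) τ σ hc hin))
  refine ⟨y, fun σ => ?_⟩
  have h5 := hy (σ : GK i₀) ((hdat.ker _).2 σ.2)
  have h6 : om (c' (σ : GK i₀)) =
      om (((((cyc i₀ (σ : GK i₀)) ^ r : ℤ_[3]ˣ) : ℤ_[3]) - 1) * y) := by
    rw [om_mul, om_sub, om_one]
    exact h5
  rw [← hval σ]
  exact om_inj h6

end Pool.Agent.D0H50.SC
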