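import Pool.Agent.D0H50.SC.Tot
import Pool.Agent.D0H50.SC.M
import Pool.Agent.N848.Sch.L

/-!
# Project SC: the criterion in terms of cubes
-/

set_option autoImplicit false
set_option linter.unusedVariables false

open scoped Classical

namespace Pool.Agent.D0H50.SC

open Pool.Agent.Y692.QS
open Pool.Agent.Y715.T.Gi Pool.Agent.Y715.T.Nr Pool.Agent.Y715.T.Df Pool.Agent.Y715.T.Sel
open Pool.Agent.Y715.T.Rec (cs)
open Pool.Agent.Y715.T.RecG (Pq)
open Pool.Agent.Y703.CT (Dt pD)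
open Pool.Agent.N883.FF (nq FamE)
open Pool.Agent.D0H43.L3 (yq)
open Pool.Agent.N848.Sch
open Pool.Agent.D0H10.KH
open Pool.Agent.D0H50.JL (qG)

/-- the part above three -/
def uu (b : Bool) (a : ℕ) (i : ZMod 3) : Ei := sg b * (lam ^ a * w ^ i.val)

lemma pq_not_sg {π : Ei} (h : Pq π) (b : Bool) : ¬ π ∣ sg b := fun h1 =>
  h.prime.not_isUnit (isUnit_of_dvd_unit h1 (sg_unit b))

lemma pq_not_w {π : Ei} (h : Pq π) (n : ℕ) : ¬ π ∣ w ^ n := fun h1 =>
  h.prime.not_isUnit (isUnit_of_dvd_unit h1 (Pool.Agent.N883.FF.isUnit_w.pow n))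

lemma pq_not_lamp {π : Ei} (h : Pq π) (n : ℕ) : ¬ π ∣ lam ^ n := fun h1 =>
  pq_not_lam h (h.prime.dvd_of_dvd_pow h1)

lemma cs_sg {π : Ei} (h : Pq π) (b : Bool) : cs π (sg b) = 0 := by
  cases b
  · exact Pool.Agent.Y715.T.RecG.cs_neg_one h.prime h.norm
  · exact Pool.Agent.Y715.T.RecG.cs_one h.prime h.norm

lemma cs_lam {π : Ei} (h : Pq π) : cs π lam = -yq π := by
  have h1 : cs π (lam * lam) = cs π lam + cs π lam :=
    Pool.Agent.Y715.T.RecG.cs_mul h.prime h.norm (pq_not_lam h) (pq_not_lam h)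
  have h2 : (lam : Ei) * lam = -3 := by
    have := Pool.Agent.Y715.T.Gi.lam_sq
    rw [pow_two] at this
    exact this
  rw [h2, Pool.Agent.Y715.T.RecG.cs_neg h.prime h.norm h.norm, Pool.Agent.D0H43.L3.Supp.supp h] at h1
  rw [h1]
  have e3 : (3 : ZMod 3) = 0 := rfl
  linear_combination (cs π lam) * e3

lemma cs_uu {π : Ei} (h : Pq π) (b : Bool) (a : ℕ) (i : ZMod 3) :
    cs π (uu b a i) = qG i (-(a : ZMod 3)) π := by
  have h9 := h.norm
  have hl := pq_not_lamp h a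
  have hw := pq_not_w h i.val
  unfold uu qG
  rw [Pool.Agent.Y715.T.RecG.cs_mul h.prime h9 (pq_not_sg h b)
      (fun h1 => (h.prime.dvd_or_dvd h1).elim hl hw),
    Pool.Agent.Y715.T.RecG.cs_mul h.prime h9 hl hw, cs_sg h,
    Pool.Agent.Y715.T.RecG.cs_pow h.prime h9 (pq_not_lam h),
    Pool.Agent.Y715.T.RecG.cs_pow h.prime h9 (fun h1 => pq_not_w h 1 (by rwa [pow_one])),
    cs_lam h, Pool.Agent.D0H43.L3.Supp.cs_w h, ZMod.natCast_zmod_val]
  ring

lemma uu_dvd (b : Bool) {a : ℕ} (ha : a < 3) (i : ZMod 3) : uu b a i ∣ 3 := by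
  unfold uu
  rw [(sg_unit b).mul_left_dvd, (Pool.Agent.N883.FF.isUnit_w.pow i.val).mul_right_dvd, three_eq,
    dvd_neg]
  exact pow_dvd_pow lam (by omega)

/-- a divisor of three is prime to the primary primes -/
lemma not_dvd_u {π u : Ei} (h : Pq π) (hu : u ∣ 3) : ¬ π ∣ u := fun h1 => h.norm (h1.trans hu)

lemma ne_u {u : Ei} (hu : u ∣ 3) : u ≠ 0 := by
  rintro rfl
  rw [zero_dvd_iff] at hu
  exact absurd hu (by decide)

/-- a divisor of three is a unit at the places prime to three -/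
theorem un3 {i₀ : QB} (hi : i₀ ^ 2 + i₀ + 1 = 0) {u : Ei} (hu : u ∣ 3) : Un3 hi u := by
  intro p _ ι hp
  obtain ⟨v, hv⟩ := hu
  have h3 : ‖ι (ev i₀ hi 3)‖ = 1 := by
    have e1 : ev i₀ hi 3 = ((3 : ℕ) : QB) := by
      rw [map_ofNat]
      rfl
    rw [e1, map_natCast]
    have h4 : ‖((3 : ℕ) : PadicAlgCl p)‖ = ‖((3 : ℕ) : ℚ_[p])‖ := by
      have h5 := PadicAlgCl.norm_extends p ((3 : ℕ) : ℚ_[p])
      rw [← h5, map_natCast]
    rw [h4]
    have h6 : ¬ p ∣ 3 := fun h => hp ((Nat.prime_dvd_prime_iff_eq (Fact.out) Nat.prime_three).1 h)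
    have h7 := Padic.norm_natCast_eq_one_iff (p := p) (n := 3)
    rw [h7]
    exact (Nat.Prime.coprime_iff_not_dvd Fact.out).2 h6
  have hle : ∀ z : Ei, ‖ι (ev i₀ hi z)‖ ≤ 1 := fun z => by
    rw [iota_ev]
    exact ev_le (iota_sq hi ι) z
  rw [hv, map_mul, map_mul, norm_mul] at h3
  have h1 := hle u
  have h2 := hle v
  refine le_antisymm h1 ?_
  by_contra hlt
  push Not at hlt
  have h5 : ‖ι (ev i₀ hi u)‖ * ‖ι (ev i₀ hi v)‖ < 1 :=
    lt_of_le_of_lt (mul_le_of_le_one_right (norm_nonneg _) h2) hlt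
  linarith

/-- the criterion in terms of cubes -/
def CrC {J : Type} [Fintype J] (u : Ei) (π : J → Ei) (e : J → ZMod 3) : Prop :=
  ∀ v : J → ZMod 3, (∀ j, ∃ y : Ei, π j ∣ u ^ (-v j).val * ∏ i, π i ^ (e i * (v i - v j)).val - y ^ 3) →
    (9 : Ei) ∣ ∏ i, π i ^ (e i * v i).val - 1 → ∀ j, v j = 0

theorem cube_iff {J : Type} [Fintype J] [DecidableEq J] {π : J → Ei} (hπ : PP π) (e : J → ZMod 3)
    {u : Ei} (hu : u ∣ 3) (v : J → ZMod 3) (j : J) :
    (∃ y : Ei, π j ∣ u ^ (-v j).val * ∏ i, π i ^ (e i * (v i - v j)).val - y ^ 3) ↔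
      ∑ i, e i * cs (π j) (π i) * (v i - v j) = cs (π j) u * v j := by
  have hpj := (hπ.pq j).prime
  have h9 := (hπ.pq j).norm
  have hnd := hπ.not_dvd_prod j (fun i => (e i * (v i - v j)).val)
  have hnd1 : ∀ i ∈ Finset.univ.erase j, ¬ π j ∣ π i := fun i hij =>
    hπ.nd i j (Finset.ne_of_mem_erase hij)
  have e1 : ∏ i, π i ^ (e i * (v i - v j)).val =
      ∏ i ∈ Finset.univ.erase j, π i ^ (e i * (v i - v j)).val := by
    rw [← Finset.mul_prod_erase Finset.univ _ (Finset.mem_univ j), sub_self, mul_zero,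
      ZMod.val_zero, pow_zero, one_mul]
  have hu' := not_dvd_u (hπ.pq j) hu
  have hup : ¬ π j ∣ u ^ (-v j).val := fun h => hu' (hpj.dvd_of_dvd_pow h)
  rw [e1, ← Pool.Agent.Y715.T.RecG.cs_zero_iff hpj h9
      (fun h => (hpj.dvd_or_dvd h).elim hup hnd),
    Pool.Agent.Y715.T.RecG.cs_mul hpj h9 hup hnd, Pool.Agent.Y715.T.RecG.cs_pow hpj h9 hu',
    Pool.Agent.Y715.T.RecG.cs_prod hpj h9 _ _
      (fun i hij h1 => hnd1 i hij (hpj.dvd_of_dvd_pow h1)),
    ← Finset.add_sum_erase Finset.univ (fun i => e i * cs (π j) (π i) * (v i - v j))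
      (Finset.mem_univ j), sub_self, mul_zero, zero_add, ZMod.natCast_zmod_val]
  have e2 : ∀ i ∈ Finset.univ.erase j, cs (π j) (π i ^ (e i * (v i - v j)).val) =
      e i * cs (π j) (π i) * (v i - v j) := by
    intro i hij
    rw [Pool.Agent.Y715.T.RecG.cs_pow hpj h9 (hnd1 i hij), ZMod.natCast_zmod_val]
    ring
  rw [Finset.sum_congr rfl e2]
  constructor
  · intro h
    linear_combination h
  · intro h
    linear_combination h

theorem nine_iff' {J : Type} [Fintype J] {π : J → Ei} (hπ : ∀ j, Pq (π j)) (x : J → ZMod 3) :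
    (9 : Ei) ∣ ∏ i, π i ^ (x i).val - 1 ↔ (∑ i, x i * nq (π i) = 0 ∧ ∑ i, x i * yq (π i) = 0) := by
  have h3 : (3 : Ei) ∣ ∏ i, π i ^ (x i).val - 1 := prm_prod hπ (fun i => (x i).val) Finset.univ
  rw [nine_iff h3, ← Pool.Agent.N883.FF.Den3.nq_zero h3, nq_prod hπ (fun i => (x i).val),
    yq_prod hπ (fun i => (x i).val)]
  simp only [ZMod.natCast_zmod_val]

theorem crC_iff {J : Type} [Fintype J] [DecidableEq J] {π : J → Ei} (hπ : PP π) (e : J → ZMod 3)
    {u : Ei} (hu : u ∣ 3) : CrC u π e ↔ KerS (fun j => cs (π j) u) π e := by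
  unfold CrC KerS
  refine forall_congr' fun v => ?_
  simp only [cube_iff hπ e hu v]
  rw [nine_iff' hπ.pq (fun i => e i * v i)]
  constructor
  · exact fun h h1 h2 h3 => h h1 ⟨h2, h3⟩
  · exact fun h h1 h2 => h h1 h2.1 h2.2

/-- the data of the elements with the criterion -/
theorem crE_data {D : Ei} (h : CrE D) : ∃ (n : ℕ) (u : Ei) (π : Fin n → Ei) (e : Fin n → ZMod 3),
    u ∣ 3 ∧ (∀ j, Pq (π j)) ∧ Function.Injective π ∧ (∀ j, e j ≠ 0) ∧
      D = u * ∏ j, π j ^ (e j).val ∧ CrC u π e := by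
  obtain ⟨b, a, z, ha, hz, rfl, i, z₀, rfl, n, π, e, hdt, rfl, hk⟩ := h
  have hinj : Function.Injective π := by
    intro i j hij
    by_contra hne
    exact hdt.nd i j hne (hij ▸ dvd_refl _)
  have hPP : PP π := pp_of hdt.pq hinj
  refine ⟨n + 1, uu b a i, π, e, uu_dvd b ha i, hdt.pq, hinj, hdt.e0, ?_, ?_⟩
  · unfold uu pD
    ring
  · rw [crC_iff hPP e (uu_dvd b ha i)]
    have e1 : (fun j => cs (π j) (uu b a i)) = fun k => qG i (-(a : ZMod 3)) (π k) :=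
      funext fun j => cs_uu (hdt.pq j) b a i
    rw [e1]
    exact hk

end Pool.Agent.D0H50.SC
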