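import Pool.Agent.D0H50.SC.Pen
import Pool.Agent.D0H50.SC.BoxX
import Pool.Agent.D0H50.SC.BoxY
import Pool.Agent.D0H50.SC.C
import Pool.Agent.D0H50.JL.LimJ
import Pool.Agent.D0H50.JL.Exc

/-!
# Project SC: the proportions
-/

set_option autoImplicit false
set_option linter.unusedVariables false

open scoped Classical

namespace Pool.Agent.D0H50.SC

open Finset Filter Topology
open Pool.Agent.Y692.QS (Ei w nr toC nr_mul)
open Pool.Agent.Y715.T.Rec (cs)
open Pool.Agent.Y715.T.RecG (Pq)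
open Pool.Agent.Y703.CT (Dt pD)
open Pool.Agent.Y703.XK (c9)
open Pool.Agent.Y715.T.Gi (lam prime_lam lam_sq)
open Pool.Agent.R419.KF (wt SG el mem_SG GdW wt_ne el_inj)
open Pool.Agent.Y433.XK (pN pN_pos)
open Pool.Agent.N883.FF (ClU SU ClP nq PP FamE card_fam den3 PP_top fam_iff w_pow_inj)
open Pool.Agent.N883.FF.Tot (mem_SU su_le card_eq card_cls clp_el clp_pair)
open Pool.Agent.D0H43.L3 (yq)
open Pool.Agent.D0H69.L3K (fin_nr)
open Pool.Agent.D0H10.KH
open Pool.Agent.D0H50.JL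

/-- **The law of the union of the four conditions of a pencil.** -/
theorem err_or {F A B C D : Finset Ei → Finset Ei → Prop} (hA : Err F A c9) (hB : Err F B c9)
    (hC : Err F C c9) (hD : Err F D c9)
    (hq : ∀ M S : Finset Ei, ClU M S → F M S → Quad (A M S) (B M S) (C M S) (D M S)) :
    Err F (fun M S => A M S ∨ B M S ∨ C M S ∨ D M S) (4 / 3 * c9) := by
  have aux : ∀ {a a' b b' c c' d d' e e' : ℕ}, 3 * a' = b' + c' + d' + e' → a = a' → b = b' →
      c = c' → d = d' → e = e' → 3 * a = b + c + d + e := by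
    intro a a' b b' c c' d d' e e' h ha hb hc hd he
    subst ha hb hc hd he
    exact h
  have key : ∀ X : ℕ, 3 * Gt F (fun M S => A M S ∨ B M S ∨ C M S ∨ D M S) X =
      Gt F A X + Gt F B X + Gt F C X + Gt F D X := by
    intro X
    unfold Gt
    rw [mul_sum, ← sum_add_distrib, ← sum_add_distrib, ← sum_add_distrib]
    refine sum_congr rfl fun M hM => ?_
    have h1 := card_or ((SU M (X / pN M)).filter (F M)) (A M) (B M) (C M) (D M)
      (fun S hS => by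
        rw [mem_filter] at hS
        exact hq M S (mem_SU.1 hS.1).1 hS.2)
    exact aux h1 (fcc2 fun _ _ => Iff.rfl) (fcc2 fun _ _ => Iff.rfl) (fcc2 fun _ _ => Iff.rfl)
      (fcc2 fun _ _ => Iff.rfl) (fcc2 fun _ _ => Iff.rfl)
  intro δ hδ
  have hδ' : 0 < δ / 2 := by positivity
  filter_upwards [hA _ hδ', hB _ hδ', hC _ hδ', hD _ hδ'] with X h1 h2 h3 h4
  have h5 : (3 : ℝ) * (Gt F (fun M S => A M S ∨ B M S ∨ C M S ∨ D M S) X : ℝ) =
      (Gt F A X : ℝ) + (Gt F B X : ℝ) + (Gt F C X : ℝ) + (Gt F D X : ℝ) := by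
    exact_mod_cast key X
  have hX : (0 : ℝ) ≤ X := Nat.cast_nonneg _
  have hδX : 0 ≤ δ * X := mul_nonneg hδ.le hX
  rw [abs_le] at h1 h2 h3 h4 ⊢
  constructor
  · linarith [h1.1, h2.1, h3.1, h4.1]
  · linarith [h1.2, h2.2, h3.2, h4.2]

/-- the four conditions with potential -/
def GX (r s g₁ g₂ : ZMod 3) (M S : Finset Ei) : Prop :=
  GdP r s M S ∨ GdX (qG r s) (qG g₁ g₂) 0 M S ∨ GdX (qG r s) (qG g₁ g₂) (0 + 1) M S ∨
    GdX (qG r s) (qG g₁ g₂) (0 + 2) M S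

theorem err_X {r s g₁ g₂ : ZMod 3} (h : r * g₂ - s * g₁ ≠ 0) : Err Ft (GX r s g₁ g₂) (4 / 3 * c9) := by
  have hrs : r ≠ 0 ∨ s ≠ 0 := by
    by_contra hno
    push Not at hno
    rw [hno.1, hno.2, zero_mul, zero_mul, sub_zero] at h
    exact h rfl
  exact err_or (err_of (loc_P' r s hrs)) (err_of (loc_X r s g₁ g₂ 0 h))
    (err_of (loc_X r s g₁ g₂ (0 + 1) h)) (err_of (loc_X r s g₁ g₂ (0 + 2) h))
    fun M S _ _ => quad_X r s 0 (qG g₁ g₂) M S

/-- the four conditions without potential -/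
def GY (N Y : ZMod 3) (M S : Finset Ei) : Prop :=
  GdW M S ∨ GdY (qG Y (-N)) 0 M S ∨ GdY (qG Y (-N)) 1 M S ∨ GdY (qG Y (-N)) 2 M S

theorem err_Y {N Y : ZMod 3} (h : N ≠ 0 ∨ Y ≠ 0) : Err (Fny N Y) (GY N Y) (4 / 3 * c9) := by
  refine err_or (err_of (loc_W' N Y)) (err_of (loc_Y N Y 0 h)) (err_of (loc_Y N Y 1 h))
    (err_of (loc_Y N Y 2 h)) fun M S hMS hF => quad_Y M S hMS.1 ?_
  have e : ∑ π ∈ S, wt M π * qG Y (-N) π =
      Y * ∑ π ∈ S, wt M π * nq π - N * ∑ π ∈ S, wt M π * yq π := by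
    rw [Finset.mul_sum, Finset.mul_sum, ← Finset.sum_sub_distrib]
    refine Finset.sum_congr rfl fun ρ _ => ?_
    unfold qG
    ring
  rw [e, hF.1, hF.2, mul_comm, sub_self]

/-- the pairs different from zero -/
def NZ : Finset (ZMod 3 × ZMod 3) := Finset.univ.erase 0

theorem mem_NZ {p : ZMod 3 × ZMod 3} : p ∈ NZ ↔ p.1 ≠ 0 ∨ p.2 ≠ 0 := by
  revert p
  decide

/-- not in the class of `± 1` modulo nine -/
def Fn (M S : Finset Ei) : Prop := ¬ Fny 0 0 M S

/-- the four conditions in the class -/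
def GZ (M S : Finset Ei) : Prop := ∃ p ∈ NZ, Fny p.1 p.2 M S ∧ GY p.1 p.2 M S

theorem fny_uniq {N Y N' Y' : ZMod 3} {M S : Finset Ei} (h : Fny N Y M S) (h' : Fny N' Y' M S) :
    N = N' ∧ Y = Y' := ⟨h.1.symm.trans h'.1, h.2.symm.trans h'.2⟩

theorem card_part {s : Finset (Finset Ei)} {M : Finset Ei}
    (G : ZMod 3 × ZMod 3 → Finset Ei → Prop) :
    (s.filter fun S => ∃ p ∈ NZ, Fny p.1 p.2 M S ∧ G p S).card =
      ∑ p ∈ NZ, (s.filter fun S => Fny p.1 p.2 M S ∧ G p S).card := by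
  rw [← card_biUnion]
  · congr 1
    ext S
    simp only [mem_filter, mem_biUnion]
    constructor
    · rintro ⟨h1, p, hp, h2⟩
      exact ⟨p, hp, h1, h2⟩
    · rintro ⟨p, hp, h1, h2⟩
      exact ⟨h1, p, hp, h2⟩
  · intro p hp q hq hpq
    rw [Function.onFun, disjoint_left]
    intro S h1 h2
    rw [mem_filter] at h1 h2
    obtain ⟨h3, h4⟩ := fny_uniq h1.2.1 h2.2.1
    exact hpq (Prod.ext h3 h4)

theorem fn_iff {M S : Finset Ei} : Fn M S ↔ ∃ p ∈ NZ, Fny p.1 p.2 M S ∧ True := by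
  constructor
  · intro h
    refine ⟨(∑ π ∈ S, wt M π * nq π, ∑ π ∈ S, wt M π * yq π), mem_NZ.2 ?_, ⟨rfl, rfl⟩, trivial⟩
    by_contra hno
    push Not at hno
    exact h ⟨hno.1, hno.2⟩
  · rintro ⟨p, hp, h, -⟩ h0
    obtain ⟨h3, h4⟩ := fny_uniq h h0
    rcases mem_NZ.1 hp with h5 | h5
    · exact h5 h3
    · exact h5 h4

theorem err_Z : Err Fn GZ (4 / 3 * c9) := by
  have e1 : ∀ X : ℕ, Gt Fn GZ X = ∑ p ∈ NZ, Gt (Fny p.1 p.2) (GY p.1 p.2) X := by
    intro X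
    unfold Gt
    rw [sum_comm]
    refine sum_congr rfl fun M _ => ?_
    rw [← card_part (M := M) (s := SU M (X / pN M)) (fun p S => GY p.1 p.2 M S)]
    refine Pool.Agent.XLK.fcc fun S _ => ?_
    constructor
    · exact fun h => h.2
    · intro h
      refine ⟨fn_iff.2 ?_, h⟩
      obtain ⟨p, hp, h1, -⟩ := h
      exact ⟨p, hp, h1, trivial⟩
  have e2 : ∀ X : ℕ, N0 Fn X = ∑ p ∈ NZ, N0 (Fny p.1 p.2) X := by
    intro X
    unfold N0
    rw [sum_comm]
    refine sum_congr rfl fun M _ => ?_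
    have h1 := card_part (M := M) (s := SU M (X / pN M)) (fun p S => True)
    refine (Pool.Agent.XLK.fcc fun S _ => fn_iff).trans (h1.trans (sum_congr rfl fun p _ => ?_))
    exact Pool.Agent.XLK.fcc fun S _ => ⟨fun h => h.1, fun h => ⟨h, trivial⟩⟩
  intro δ hδ
  have hall : ∀ᶠ X : ℕ in atTop, ∀ p ∈ NZ, |(Gt (Fny p.1 p.2) (GY p.1 p.2) X : ℝ) -
      4 / 3 * c9 * (N0 (Fny p.1 p.2) X : ℝ)| ≤ δ / 8 * X := by
    rw [eventually_all_finset]
    exact fun p hp => err_Y (mem_NZ.1 hp) _ (by positivity)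
  filter_upwards [hall] with X hX
  rw [e1, e2]
  push_cast
  rw [mul_sum, ← sum_sub_distrib]
  refine (abs_sum_le_sum_abs _ _).trans ((sum_le_sum hX).trans ?_)
  rw [sum_const, nsmul_eq_mul]
  have h8 : NZ.card = 8 := by decide
  rw [h8]
  push_cast
  linarith

/-! ### the elements -/

/-- the elements given by the pairs with the property `G` -/
def TG (G : Finset Ei → Finset Ei → Prop) (z : Ei) : Prop :=
  ∃ M S : Finset Ei, ClU M S ∧ S.Nonempty ∧ z = el M S ∧ G M S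

theorem tg_iff {G : Finset Ei → Finset Ei → Prop} {M S : Finset Ei} (h : ClU M S)
    (hne : S.Nonempty) : TG G (el M S) ↔ G M S := by
  constructor
  · rintro ⟨M', S', h', hne', he, hG⟩
    obtain ⟨h4, h5⟩ := el_inj h.1 h.2 h'.1 h'.2 he
    rw [h4, h5]
    exact hG
  · exact fun hG => ⟨M, S, h, hne, rfl, hG⟩

theorem tg_ne {G : Finset Ei → Finset Ei → Prop} {z : Ei} (h : TG G z) : z ≠ 1 := by
  obtain ⟨M, S, h1, h2, rfl, -⟩ := h
  exact el_ne_one h1 h2

/-- the criterion of an element -/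
def Cr (r s : ZMod 3) (z : Ei) : Prop :=
  ∃ (n : ℕ) (π : Fin (n + 1) → Ei) (e : Fin (n + 1) → ZMod 3), Dt π e ∧ z = pD π e ∧
    KerS (fun k => qG r s (π k)) π e

theorem gdS_ker {J : Type} [Fintype J] {π : J → Ei} {M S : Finset Ei}
    (hinj : Function.Injective π) (himg : univ.image π = S) (q : Ei → ZMod 3) :
    GdS q M S ↔ KerS (fun k => q (π k)) π (fun i => wt M (π i)) := by
  unfold GdS KerS
  rw [← forall_res hinj]
  refine forall_congr' fun v => ?_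
  rw [ball_res himg, ball_res himg]
  simp only [sum_res hinj himg]

theorem cr_of {G : Finset Ei → Finset Ei → Prop} {r s : ZMod 3}
    (hG : ∀ M S : Finset Ei, ClU M S → G M S → GdS (qG r s) M S) {z : Ei} (h : TG G z) :
    Cr r s z := by
  obtain ⟨M, S, h1, h2, rfl, h3⟩ := h
  obtain ⟨n, π, hdt, hel, hinj, himg⟩ := datt h1 h2
  exact ⟨n, π, _, hdt, hel, (gdS_ker hinj himg _).1 (hG M S h1 h3)⟩

/-- the limits -/
noncomputable def cc (i a : ZMod 3) : ℝ := if i = 0 ∧ a = 0 then 32 / 27 * c9 else 4 / 3 * c9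

theorem ex_T (i a : ZMod 3) : ∃ T : Ei → Prop, (∀ z, T z → z ≠ 1 ∧ Cr i (-a) z) ∧
    Tendsto (fun X : ℕ => ({D : Ei | nr D ≤ X ∧ ClP D ∧ T D}.ncard : ℝ) / (PP X : ℝ))
      atTop (𝓝 (cc i a)) := by
  unfold cc
  by_cases h : i = 0 ∧ a = 0
  · rw [if_pos h]
    obtain ⟨rfl, rfl⟩ := h
    refine ⟨fun z => ¬ ((9 : ℤ) ∣ nr z - 1 ∧ yq z = 0) ∧ TG GZ z, fun z hz => ⟨tg_ne hz.2,
      cr_of (fun M S hMS hG => ?_) hz.2⟩, ?_⟩
    · obtain ⟨p, hp, hF, hG⟩ := hG
      have h0 : qG 0 (-0) = fun _ => 0 := by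
        funext π
        unfold qG
        ring
      rw [h0]
      exact gdS_of_Y (mem_NZ.1 hp) hF hG
    · have e : (32 / 27 * c9 : ℝ) = 4 / 3 * c9 * (1 - 1 / 9) := by ring
      rw [e]
      refine lim_elt err_Z _ (TG GZ) (fun M S hMS => ?_) (fun M S hMS hne _ => tg_iff hMS hne) ?_
      · rw [fy_el hMS 0]
        exact Iff.rfl
      · have h1 : Tendsto (fun X : ℕ => (PP X : ℝ) / (PP X : ℝ)) atTop (𝓝 1) := by
          refine (tendsto_congr' ?_).2 tendsto_const_nhds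
          filter_upwards [(PP_top den3).eventually_gt_atTop 0] with X hX
          exact div_self hX.ne'
        refine (h1.sub (den9 0)).congr fun X => ?_
        rw [← sub_div]
        congr 1
        have h2 : {D : Ei | nr D ≤ X ∧ ClP D} =
            {D : Ei | nr D ≤ X ∧ ClP D ∧ ((9 : ℤ) ∣ nr D - 1 ∧ yq D = 0)} ∪
              {D : Ei | nr D ≤ X ∧ ClP D ∧ ¬ ((9 : ℤ) ∣ nr D - 1 ∧ yq D = 0)} := by
          ext D
          simp only [Set.mem_union, Set.mem_ofPred_eq]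
          tauto
        have h3 : Disjoint {D : Ei | nr D ≤ X ∧ ClP D ∧ ((9 : ℤ) ∣ nr D - 1 ∧ yq D = 0)}
            {D : Ei | nr D ≤ X ∧ ClP D ∧ ¬ ((9 : ℤ) ∣ nr D - 1 ∧ yq D = 0)} := by
          rw [Set.disjoint_left]
          rintro D ⟨-, -, h4⟩ ⟨-, -, h5⟩
          exact h5 h4
        have h4 := Set.ncard_union_eq h3 ((fin_nr X).subset fun z hz => hz.1)
          ((fin_nr X).subset fun z hz => hz.1)
        rw [← h2] at h4
        have h5 : (PP X : ℝ) = (({D : Ei | nr D ≤ X ∧ ClP D}.ncard : ℕ) : ℝ) := rfl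
        rw [h5, h4]
        push_cast
        ring
  · rw [if_neg h]
    obtain ⟨g₁, g₂, hg⟩ : ∃ g₁ g₂ : ZMod 3, i * g₂ - (-a) * g₁ ≠ 0 := by
      revert i a
      decide
    refine ⟨TG (GX i (-a) g₁ g₂), fun z hz => ⟨tg_ne hz, cr_of (fun M S hMS hG => ?_) hz⟩, ?_⟩
    · exact gdS_of_X hG
    · exact lim_elt_all (err_X hg) _ fun M S hMS hne => tg_iff hMS hne

/-! ### the family -/

/-- from the classes modulo three to the family, different limits -/
theorem fam_lim' (T : Ei → Prop) {c : ZMod 3 → ℝ} (hlim : ∀ i : ZMod 3, Tendsto (fun X : ℕ =>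
      ({z : Ei | nr z ≤ X ∧ ClP z ∧ (z ≠ 1 ∧ T (w ^ i.val * z))}.ncard : ℝ) / (PP X : ℝ)) atTop
        (𝓝 (c i))) :
    Tendsto (fun X : ℕ => ({D : Ei | nr D ≤ X ∧ FamE D ∧ T D}.ncard : ℝ) / (FC X : ℝ))
      atTop (𝓝 ((c 0 + c 1 + c 2) / 3)) := by
  have hP : Tendsto (fun X : ℕ => (PP X : ℝ)) atTop atTop := PP_top den3
  have h0 : Tendsto (fun X : ℕ => 1 / (PP X : ℝ)) atTop (𝓝 0) := by
    simp only [one_div]
    exact tendsto_inv_atTop_zero.comp hP
  have h1 := (((hlim 0).add (hlim 1)).add (hlim 2)).div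
    ((tendsto_const_nhds (x := (1 : ℝ))).sub h0 |>.const_mul 3) (by norm_num)
  have e1 : (c 0 + c 1 + c 2) / (3 * (1 - 0)) = (c 0 + c 1 + c 2) / 3 := by ring
  rw [e1] at h1
  refine h1.congr' ?_
  filter_upwards [hP.eventually_gt_atTop 1, eventually_ge_atTop 1] with X hX hX1
  rw [fc_eq hX1, card_fam T X]
  have hu : (Finset.univ : Finset (ZMod 3)) = {0, 1, 2} := by decide
  rw [hu, Finset.sum_insert (by decide), Finset.sum_insert (by decide), Finset.sum_singleton]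
  push_cast
  have h2 : (PP X : ℝ) ≠ 0 := by linarith
  have h3 : (PP X : ℝ) - 1 ≠ 0 := by linarith
  have h4 : 1 - 1 / (PP X : ℝ) ≠ 0 := by
    rw [Ne, sub_eq_zero, eq_div_iff h2]
    intro h
    apply h3
    linarith
  simp only [Pi.div_apply]
  field_simp
  ring

/-- the criterion in the class of the `√-3 ^ a z` -/
def CrF (a : ZMod 3) (z : Ei) : Prop := ∃ (i : ZMod 3) (z₀ : Ei), z = w ^ i.val * z₀ ∧ Cr i (-a) z₀

theorem w_uniq {i i' : ZMod 3} {z z' : Ei} (h : (3 : Ei) ∣ z - 1) (h' : (3 : Ei) ∣ z' - 1)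
    (he : w ^ i.val * z = w ^ i'.val * z') : i = i' ∧ z = z' := by
  have h1 : (3 : Ei) ∣ w ^ i.val - w ^ i'.val := by
    have e : (w : Ei) ^ i.val - w ^ i'.val = w ^ i'.val * (z' - 1) - w ^ i.val * (z - 1) := by
      linear_combination he
    rw [e]
    exact dvd_sub (h'.mul_left _) (h.mul_left _)
  have h2 := w_pow_inj h1
  subst h2
  exact ⟨rfl, mul_left_cancel₀ (Pool.Agent.N883.FF.isUnit_w.pow _).ne_zero he⟩

theorem ex_TF (a : ZMod 3) : ∃ T : Ei → Prop, (∀ z, T z → CrF a z) ∧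
    Tendsto (fun X : ℕ => ({D : Ei | nr D ≤ X ∧ FamE D ∧ T D}.ncard : ℝ) / (FC X : ℝ))
      atTop (𝓝 (if a = 0 then 104 / 81 * c9 else 4 / 3 * c9)) := by
  choose T hT1 hT2 using fun i => ex_T i a
  refine ⟨fun z => ∃ (i : ZMod 3) (z₀ : Ei), (3 : Ei) ∣ z₀ - 1 ∧ z = w ^ i.val * z₀ ∧ T i z₀,
    fun z hz => ?_, ?_⟩
  · obtain ⟨i, z₀, -, h1, h2⟩ := hz
    exact ⟨i, z₀, h1, (hT1 i z₀ h2).2⟩
  · have h := fam_lim' (fun z => ∃ (i : ZMod 3) (z₀ : Ei), (3 : Ei) ∣ z₀ - 1 ∧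
      z = w ^ i.val * z₀ ∧ T i z₀) (c := fun i => cc i a) (fun i => by
        refine (hT2 i).congr fun X => ?_
        congr 3
        ext z
        simp only [Set.mem_ofPred_eq]
        refine and_congr_right fun _ => and_congr_right fun hz => ?_
        constructor
        · exact fun h => ⟨(hT1 i z h).1, i, z, hz.1, rfl, h⟩
        · rintro ⟨-, i', z', h1, h2, h3⟩
          obtain ⟨rfl, rfl⟩ := w_uniq hz.1 h1 h2
          exact h3)
    have e : (cc 0 a + cc 1 a + cc 2 a) / 3 = if a = 0 then 104 / 81 * c9 else 4 / 3 * c9 := by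
      unfold cc
      have h1 : ¬ ((1 : ZMod 3) = 0 ∧ a = 0) := fun h => by
        have := h.1
        revert this
        decide
      have h2 : ¬ ((2 : ZMod 3) = 0 ∧ a = 0) := fun h => by
        have := h.1
        revert this
        decide
      rw [if_neg h1, if_neg h2]
      by_cases ha : a = 0
      · rw [if_pos ⟨rfl, ha⟩, if_pos ha]
        ring
      · rw [if_neg (fun h => ha h.2), if_neg ha]
        ring
    rw [e] at h
    exact h

end Pool.Agent.D0H50.SC
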