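import Pool.Agent.D0H50.SC.Cnd
import Pool.Agent.D0H50.JL.Pencil

/-!
# Project SC: pencils with an arbitrary border

Adapted from the file `D0H50/JL/Pencil.lean`.
-/

set_option autoImplicit false
set_option linter.unusedVariables false

open scoped Classical

namespace Pool.Agent.D0H50.SC

open Finset
open Pool.Agent.Y692.QS (Ei w nr toC)
open Pool.Agent.Y715.T.Rec (cs)
open Pool.Agent.Y715.T.RecG (Pq)
open Pool.Agent.R419.KF (wt wt_ne GdW SolW)
open Pool.Agent.Y688.XK (cs_symm)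
open Pool.Agent.N883.FF (nq)
open Pool.Agent.D0H43.L3 (yq)
open Pool.Agent.D0H50.JL

/-- one of the four statements holds -/
theorem card_or {α : Type} (s : Finset α) (A B C D : α → Prop)
    (h : ∀ x ∈ s, Quad (A x) (B x) (C x) (D x)) :
    3 * (s.filter fun x => A x ∨ B x ∨ C x ∨ D x).card =
      (s.filter A).card + (s.filter B).card + (s.filter C).card + (s.filter D).card := by
  simp only [Finset.card_filter]
  rw [Finset.mul_sum, ← Finset.sum_add_distrib, ← Finset.sum_add_distrib, ← Finset.sum_add_distrib]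
  refine Finset.sum_congr rfl fun x hx => ?_
  rcases h x hx with h | h | h | h | h
  · obtain ⟨h1, h2, h3, h4⟩ := h
    simp [h1, h2, h3, h4]
  · obtain ⟨h1, h2, h3, h4⟩ := h
    simp [h1, h2, h3, h4]
  · obtain ⟨h1, h2, h3, h4⟩ := h
    simp [h1, h2, h3, h4]
  · obtain ⟨h1, h2, h3, h4⟩ := h
    simp [h1, h2, h3, h4]
  · obtain ⟨h1, h2, h3, h4⟩ := h
    simp [h1, h2, h3, h4]

section sys
variable (g : Ei → ZMod 3) (M S : Finset Ei)

/-- the border -/
noncomputable def Lf : (S → ZMod 3) →ₗ[ZMod 3] ZMod 3 where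
  toFun v := ∑ ρ : S, wt M ρ * v ρ * g ρ
  map_add' v v' := by
    rw [← Finset.sum_add_distrib]
    exact Finset.sum_congr rfl fun ρ _ => by
      rw [Pi.add_apply]
      ring
  map_smul' c v := by
    rw [RingHom.id_apply, smul_eq_mul, Finset.mul_sum]
    exact Finset.sum_congr rfl fun ρ _ => by
      rw [Pi.smul_apply, smul_eq_mul]
      ring

/-- the column -/
def Lg : S → ZMod 3 := fun π => g (π : Ei)

end sys

theorem Lf_apply (g : Ei → ZMod 3) (M S : Finset Ei) (v : S → ZMod 3) :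
    Lf g M S v = ∑ ρ : S, wt M ρ * v ρ * g ρ := rfl

theorem gdX_iff (q g : Ei → ZMod 3) (t : ZMod 3) (M S : Finset Ei) :
    GdX q g t M S ↔ Gp (LB q M S) (Lg g S) (Lf g M S) ⊥ t := by
  unfold GdX Gp
  constructor
  · intro h v a hv ha
    obtain ⟨v', hv'⟩ := ex_ext v
    have h1 := h v' a (fun π hπ => by
      have h2 := congrFun hv ⟨π, hπ⟩
      rw [Pi.add_apply, Pi.smul_apply, LB_apply, Pi.zero_apply, smul_eq_mul] at h2
      rw [← Finset.sum_coe_sort S]
      have e := hv' ⟨π, hπ⟩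
      simp only [hv', e]
      have e2 : Lg g S ⟨π, hπ⟩ = g π := rfl
      rw [e2] at h2
      linear_combination h2) (by
      rw [← Finset.sum_coe_sort S]
      simp only [hv']
      exact ha)
    refine ⟨?_, h1.2⟩
    rw [Submodule.mem_bot]
    funext π
    rw [← hv' π]
    exact h1.1 π π.2
  · intro h v a hv ha
    have h1 := h (fun x => v x) a (by
      funext x
      rw [Pi.add_apply, Pi.smul_apply, LB_apply, Pi.zero_apply, smul_eq_mul]
      have h2 := hv x x.2
      rw [← Finset.sum_coe_sort S] at h2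
      have e2 : Lg g S x = g (x : Ei) := rfl
      rw [e2]
      linear_combination h2) (by
      rw [← Finset.sum_coe_sort S] at ha
      exact ha)
    refine ⟨fun π hπ => ?_, h1.2⟩
    have h3 := h1.1
    rw [Submodule.mem_bot] at h3
    exact congrFun h3 ⟨π, hπ⟩

/-- **The four conditions of the systems with the potential `r nq + s yq` and any border.** -/
theorem quad_X (r s t : ZMod 3) (g : Ei → ZMod 3) (M S : Finset Ei) :
    Quad (GdP r s M S) (GdX (qG r s) g t M S) (GdX (qG r s) g (t + 1) M S)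
      (GdX (qG r s) g (t + 2) M S) := by
  refine Quad.congr (pencil_quad (LB (qG r s) M S) (Lg g S) (Lf g M S) ⊥ ?_ ?_
    (fun h => surj_of _ h _) t) (gdP_iff r s M S).symm (gdX_iff _ g t M S).symm
    (gdX_iff _ g _ M S).symm (gdX_iff _ g _ M S).symm
  · intro v hv
    rw [Submodule.mem_bot] at hv
    rw [hv, map_zero]
  · intro v hv
    rw [Submodule.mem_bot] at hv
    rw [hv, map_zero]

theorem gdY_iff (g : Ei → ZMod 3) (t : ZMod 3) (M S : Finset Ei) :
    GdY g t M S ↔ Gp (LB (fun _ => 0) M S) (Lg g S) (Lf g M S) (Wc S) (-t) := by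
  unfold GdY Gp
  constructor
  · intro h v a hv ha
    obtain ⟨v', hv'⟩ := ex_ext v
    have h1 := h v' a (fun π hπ => by
      have h2 := congrFun hv ⟨π, hπ⟩
      rw [Pi.add_apply, Pi.smul_apply, LB_apply, Pi.zero_apply, smul_eq_mul, zero_mul,
        sub_zero] at h2
      rw [← Finset.sum_coe_sort S]
      have e := hv' ⟨π, hπ⟩
      simp only [hv', e]
      exact h2) (by
      rw [← Finset.sum_coe_sort S]
      simp only [hv']
      rw [Lf_apply] at ha
      rw [ha]
      ring)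
    refine ⟨?_, h1.2⟩
    rw [mem_Wc]
    intro x y
    rw [← hv' x, ← hv' y]
    exact h1.1 x x.2 y y.2
  · intro h v a hv ha
    have h1 := h (fun x => v x) a (by
      funext x
      rw [Pi.add_apply, Pi.smul_apply, LB_apply, Pi.zero_apply, smul_eq_mul, zero_mul, sub_zero]
      have h2 := hv x x.2
      rw [← Finset.sum_coe_sort S] at h2
      exact h2) (by
      rw [← Finset.sum_coe_sort S] at ha
      rw [Lf_apply]
      linear_combination ha)
    refine ⟨fun π hπ ρ hρ => ?_, h1.2⟩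
    have h3 := h1.1
    rw [mem_Wc] at h3
    exact h3 ⟨π, hπ⟩ ⟨ρ, hρ⟩

/-- if the kernel of the Laplacian consists of the constants, then its image contains `g` -/
theorem surj_Y {g : Ei → ZMod 3} {M S : Finset Ei} (hS : ∀ π ∈ S, Pq π)
    (hN : ∑ π ∈ S, wt M π * g π = 0)
    (h : Tp (LB (fun _ => 0) M S) (Wc S)) : ∃ x, LB (fun _ => 0) M S x = Lg g S := by
  by_contra hno
  have h1 : Lg g S ∉ LinearMap.range (LB (fun _ => 0) M S) := fun ⟨x, hx⟩ => hno ⟨x, hx⟩
  obtain ⟨f, hf1, hf2⟩ := Submodule.exists_dual_map_eq_bot_of_notMem h1 inferInstance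
  -- the coefficients of the functional
  obtain ⟨c, hc⟩ : ∃ c : S → ZMod 3, ∀ v : S → ZMod 3, f v = ∑ π : S, c π * v π := by
    refine ⟨fun π => f (Pi.single π 1), fun v => ?_⟩
    have e1 : v = ∑ π : S, v π • (Pi.single π 1 : S → ZMod 3) := by
      funext l
      rw [Finset.sum_apply, Finset.sum_eq_single l]
      · rw [Pi.smul_apply, Pi.single_eq_same, smul_eq_mul, mul_one]
      · intro j _ hj
        rw [Pi.smul_apply, Pi.single_eq_of_ne (Ne.symm hj), smul_eq_mul, mul_zero]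
      · intro h3
        exact absurd (Finset.mem_univ l) h3
    conv_lhs => rw [e1]
    rw [map_sum]
    refine Finset.sum_congr rfl fun π _ => ?_
    rw [map_smul, smul_eq_mul, mul_comm]
  have hz : ∀ v : S → ZMod 3, f (LB (fun _ => 0) M S v) = 0 := by
    intro v
    have h2 : f (LB (fun _ => 0) M S v) ∈
        (LinearMap.range (LB (fun _ => 0) M S)).map f := ⟨_, ⟨v, rfl⟩, rfl⟩
    rw [hf2, Submodule.mem_bot] at h2
    exact h2
  -- the functional is a solution
  obtain ⟨d, hd⟩ : ∃ d : S → ZMod 3, ∀ π : S, c π = wt M π * d π :=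
    ⟨fun π => (wt M π)⁻¹ * c π, fun π => by
      rw [← mul_assoc, mul_inv_cancel₀ (wt_ne M _), one_mul]⟩
  have hsol : LB (fun _ => 0) M S d = 0 := by
    funext ρ
    rw [LB_apply, Pi.zero_apply, zero_mul, sub_zero]
    have h3 := hz (Pi.single ρ 1)
    rw [hc] at h3
    have e3 : ∀ π : S, LB (fun _ => 0) M S (Pi.single ρ 1) π =
        wt M ρ * cs π ρ - (if π = ρ then ∑ ρ' : S, wt M ρ' * cs (π : Ei) ρ' else 0) := by
      intro π
      rw [LB_apply, zero_mul, sub_zero]
      have e4 : ∑ ρ' : S, wt M ρ' * cs (π : Ei) ρ' *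
          ((Pi.single ρ 1 : S → ZMod 3) ρ' - (Pi.single ρ 1 : S → ZMod 3) π) =
          ∑ ρ' : S, wt M ρ' * cs (π : Ei) ρ' * (Pi.single ρ 1 : S → ZMod 3) ρ' -
            (∑ ρ' : S, wt M ρ' * cs (π : Ei) ρ') * (Pi.single ρ 1 : S → ZMod 3) π := by
        rw [Finset.sum_mul, ← Finset.sum_sub_distrib]
        exact Finset.sum_congr rfl fun ρ' _ => by ring
      rw [e4, Finset.sum_eq_single ρ]
      · rw [Pi.single_eq_same, mul_one]
        by_cases hπ : π = ρ
        · rw [if_pos hπ, hπ, Pi.single_eq_same, mul_one]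
        · rw [if_neg hπ, Pi.single_eq_of_ne hπ, mul_zero]
      · intro j _ hj
        rw [Pi.single_eq_of_ne hj, mul_zero]
      · intro h3
        exact absurd (Finset.mem_univ ρ) h3
    simp only [e3, mul_sub] at h3
    rw [Finset.sum_sub_distrib] at h3
    have e5 : ∑ π : S, c π * (if π = ρ then ∑ ρ' : S, wt M ρ' * cs (π : Ei) ρ' else 0) =
        c ρ * ∑ ρ' : S, wt M ρ' * cs (ρ : Ei) ρ' := by
      rw [Finset.sum_eq_single ρ]
      · rw [if_pos rfl]
      · intro j _ hj
        rw [if_neg hj, mul_zero]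
      · intro h3
        exact absurd (Finset.mem_univ ρ) h3
    rw [e5] at h3
    have e6 : ∑ π : S, c π * (wt M ρ * cs π ρ) - c ρ * ∑ ρ' : S, wt M ρ' * cs (ρ : Ei) ρ' =
        wt M ρ * ∑ π : S, wt M π * cs (ρ : Ei) π * (d π - d ρ) := by
      rw [Finset.mul_sum, Finset.mul_sum, ← Finset.sum_sub_distrib]
      refine Finset.sum_congr rfl fun π _ => ?_
      rw [hd π, hd ρ, cs_symm (hS π π.2) (hS ρ ρ.2)]
      ring
    rw [e6] at h3
    exact (mul_eq_zero.1 h3).resolve_left (wt_ne M _)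
  have hconst := h d hsol
  rw [mem_Wc] at hconst
  -- so the functional vanishes on `g`
  apply hf1
  rw [hc]
  rcases S.eq_empty_or_nonempty with rfl | ⟨x0, hx0⟩
  · exact Finset.sum_of_isEmpty _
  · have e7 : ∑ π : S, c π * Lg g S π = d ⟨x0, hx0⟩ * ∑ π : S, wt M π * g (π : Ei) := by
      rw [Finset.mul_sum]
      refine Finset.sum_congr rfl fun π _ => ?_
      rw [hd π, hconst π ⟨x0, hx0⟩]
      show wt M π * d ⟨x0, hx0⟩ * g (π : Ei) = _
      ring
    rw [e7, Finset.sum_coe_sort S fun π => wt M π * g π, hN, mul_zero]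

/-- **The four conditions of the systems without potential and with any border of sum zero.** -/
theorem quad_Y {g : Ei → ZMod 3} (M S : Finset Ei) (hS : ∀ π ∈ S, Pq π)
    (hN : ∑ π ∈ S, wt M π * g π = 0) :
    Quad (GdW M S) (GdY g 0 M S) (GdY g 1 M S) (GdY g 2 M S) := by
  have hW1 : ∀ v ∈ Wc S, LB (fun _ => 0) M S v = 0 := by
    intro v hv
    rw [mem_Wc] at hv
    funext π
    rw [LB_apply, Pi.zero_apply, zero_mul, sub_zero]
    exact Finset.sum_eq_zero fun ρ _ => by rw [hv ρ π, sub_self, mul_zero]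
  have hW2 : ∀ v ∈ Wc S, Lf g M S v = 0 := by
    intro v hv
    rw [mem_Wc] at hv
    rw [Lf_apply]
    rcases S.eq_empty_or_nonempty with rfl | ⟨x0, hx0⟩
    · exact Finset.sum_of_isEmpty _
    · have e7 : ∑ ρ : S, wt M ρ * v ρ * g (ρ : Ei) =
          v ⟨x0, hx0⟩ * ∑ π : S, wt M π * g (π : Ei) := by
        rw [Finset.mul_sum]
        refine Finset.sum_congr rfl fun π _ => ?_
        rw [hv π ⟨x0, hx0⟩]
        ring
      rw [e7, Finset.sum_coe_sort S fun π => wt M π * g π, hN, mul_zero]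
  have h := pencil_quad (LB (fun _ => 0) M S) (Lg g S) (Lf g M S) (Wc S) hW1 hW2
    (surj_Y hS hN) 0
  have e1 : (0 + 1 : ZMod 3) = -2 := by decide
  have e2 : (0 + 2 : ZMod 3) = -1 := by decide
  have e3 : (0 : ZMod 3) = -0 := by decide
  have h2 : Quad (GdW M S) (GdY g 0 M S) (GdY g 2 M S) (GdY g 1 M S) := by
    refine Quad.congr h (gdW_iff M S).symm ?_ ?_ ?_
    · rw [gdY_iff, ← e3]
    · rw [gdY_iff, e1]
    · rw [gdY_iff, e2]
  unfold Quad at h2 ⊢
  tauto

/-! ### the criterion -/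

/-- the sum of the equations -/
theorem sum_eqs {q : Ei → ZMod 3} {M S : Finset Ei} (hS : ∀ π ∈ S, Pq π) {v : Ei → ZMod 3}
    (hv : ∀ π ∈ S, ∑ ρ ∈ S, wt M ρ * cs π ρ * (v ρ - v π) = q π * v π) :
    ∑ π ∈ S, wt M π * q π * v π = 0 := by
  have h1 := Pool.Agent.D0H69.L3K.Box.lap_sum S (fun x y => wt M x * wt M y * cs x y)
    (fun x hx y hy => by
      show wt M x * wt M y * cs x y = wt M y * wt M x * cs y x
      rw [cs_symm (hS x hx) (hS y hy)]
      ring) v
  rw [← h1]
  refine Finset.sum_congr rfl fun x hx => ?_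
  have h2 := hv x hx
  calc wt M x * q x * v x = wt M x * (q x * v x) := by ring
    _ = wt M x * ∑ ρ ∈ S, wt M ρ * cs x ρ * (v ρ - v x) := by rw [← h2]
    _ = _ := by
        rw [Finset.mul_sum]
        exact Finset.sum_congr rfl fun y _ => by ring

/-- one of the conditions with potential implies the criterion -/
theorem gdS_of_X {r s g₁ g₂ t : ZMod 3} {M S : Finset Ei}
    (h : GdP r s M S ∨ GdX (qG r s) (qG g₁ g₂) t M S ∨ GdX (qG r s) (qG g₁ g₂) (t + 1) M S ∨
      GdX (qG r s) (qG g₁ g₂) (t + 2) M S) : GdS (qG r s) M S := by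
  intro v h1 h2 h3
  have h4 : ∑ ρ ∈ S, wt M ρ * v ρ * qG g₁ g₂ ρ = 0 := by
    have e : ∑ ρ ∈ S, wt M ρ * v ρ * qG g₁ g₂ ρ =
        g₁ * ∑ ρ ∈ S, wt M ρ * v ρ * nq ρ + g₂ * ∑ ρ ∈ S, wt M ρ * v ρ * yq ρ := by
      rw [Finset.mul_sum, Finset.mul_sum, ← Finset.sum_add_distrib]
      refine Finset.sum_congr rfl fun ρ _ => ?_
      unfold qG
      ring
    rw [e, h2, h3, mul_zero, mul_zero, add_zero]
  have key : ∀ t : ZMod 3, GdX (qG r s) (qG g₁ g₂) t M S → ∀ π ∈ S, v π = 0 := by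
    intro t h
    refine (h v 0 (fun π hπ => ?_) ?_).1
    · rw [zero_mul, add_zero]
      exact h1 π hπ
    · rw [h4, mul_zero]
  rcases h with h | h | h | h
  · exact h v h1
  · exact key _ h
  · exact key _ h
  · exact key _ h

/-- one of the conditions without potential implies the criterion -/
theorem gdS_of_Y {N Y : ZMod 3} {M S : Finset Ei} (hNY : N ≠ 0 ∨ Y ≠ 0) (hF : Fny N Y M S)
    (h : GdW M S ∨ GdY (qG Y (-N)) 0 M S ∨ GdY (qG Y (-N)) 1 M S ∨ GdY (qG Y (-N)) 2 M S) :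
    GdS (fun _ => 0) M S := by
  intro v h1 h2 h3
  simp only [zero_mul] at h1
  have h4 : ∑ ρ ∈ S, wt M ρ * v ρ * qG Y (-N) ρ = 0 := by
    have e : ∑ ρ ∈ S, wt M ρ * v ρ * qG Y (-N) ρ =
        Y * ∑ ρ ∈ S, wt M ρ * v ρ * nq ρ + (-N) * ∑ ρ ∈ S, wt M ρ * v ρ * yq ρ := by
      rw [Finset.mul_sum, Finset.mul_sum, ← Finset.sum_add_distrib]
      refine Finset.sum_congr rfl fun ρ _ => ?_
      unfold qG
      ring
    rw [e, h2, h3, mul_zero, mul_zero, add_zero]
  have hconst : ∀ π ∈ S, ∀ ρ ∈ S, v π = v ρ := by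
    have key : ∀ t : ZMod 3, GdY (qG Y (-N)) t M S → ∀ π ∈ S, ∀ ρ ∈ S, v π = v ρ := by
      intro t h
      refine (h v 0 (fun π hπ => ?_) ?_).1
      · rw [zero_mul, add_zero]
        exact h1 π hπ
      · rw [h4, zero_mul, add_zero]
    rcases h with h | h | h | h
    · exact h v h1
    · exact key _ h
    · exact key _ h
    · exact key _ h
  intro π hπ
  have e1 : v π * N = 0 := by
    rw [← hF.1, ← h2, Finset.mul_sum]
    refine Finset.sum_congr rfl fun ρ hρ => ?_
    rw [hconst ρ hρ π hπ]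
    ring
  have e2 : v π * Y = 0 := by
    rw [← hF.2, ← h3, Finset.mul_sum]
    refine Finset.sum_congr rfl fun ρ hρ => ?_
    rw [hconst ρ hρ π hπ]
    ring
  rcases hNY with h | h
  · exact (mul_eq_zero.1 e1).resolve_right h
  · exact (mul_eq_zero.1 e2).resolve_right h

end Pool.Agent.D0H50.SC
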