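import Pool.Agent.D0H50.SC.Lim

/-!
# Project SC: the proportions among all cube-free `D`
-/

set_option autoImplicit false
set_option linter.unusedVariables false

open scoped Classical

namespace Pool.Agent.D0H50.SC

open Finset Filter Topology
open Pool.Agent.Y692.QS (Ei w nr toC nr_mul)
open Pool.Agent.Y715.T.Rec (cs)
open Pool.Agent.Y715.T.RecG (Pq)
open Pool.Agent.Y703.CT (Dt pD)
open Pool.Agent.Y703.XK (c9)
open Pool.Agent.Y715.T.Gi (lam prime_lam lam_sq)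
open Pool.Agent.N883.FF (ClU SU ClP nq PP FamE card_fam den3 PP_top fam_iff w_pow_inj three_dvd_w
  card_ne_one)
open Pool.Agent.N883.FF.Den3 (nq_zero nq_per)
open Pool.Agent.D0H43.L3 (yq)
open Pool.Agent.D0H43.L3.Chi (yq_one nq_one)
open Pool.Agent.D0H69.L3K (fin_nr)
open Pool.Agent.D0H10.KH
open Pool.Agent.D0H50.JL

/-- the place above three does not split in `K(∛D)` -/
def NS (D : Ei) : Prop := ¬ (9 : Ei) ∣ D ^ 2 - 1

lemma nine_iff {z : Ei} (h3 : (3 : Ei) ∣ z - 1) :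
    (9 : Ei) ∣ z - 1 ↔ ((9 : ℤ) ∣ nr z - 1 ∧ yq z = 0) := by
  rw [← nq_zero h3]
  constructor
  · intro h
    have h1 : (9 : Ei) ∣ z - 1 := h
    refine ⟨?_, ?_⟩
    · rw [nq_per h1 h3]
      decide
    · rw [yq_per h1]
      exact yq_one'
  · rintro ⟨h1, h2⟩
    obtain ⟨t, ht⟩ := h3
    have hz : z = 1 + 3 * t := by linear_combination ht
    subst hz
    rw [yq_one] at h2
    rw [nq_one] at h1
    have h4 : ((t.re : ℤ) : ZMod 3) = 0 := by
      push_cast at h1 h2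
      linear_combination -h1 - h2
    rw [ZMod.intCast_zmod_eq_zero_iff_dvd] at h2 h4
    obtain ⟨s, hs⟩ : (3 : Ei) ∣ t := three_dvd_iff.2 ⟨by exact_mod_cast h4, by exact_mod_cast h2⟩
    refine ⟨s, ?_⟩
    rw [hs]
    ring

lemma nine_sq {z : Ei} (h3 : (3 : Ei) ∣ z - 1) : (9 : Ei) ∣ z ^ 2 - 1 ↔ (9 : Ei) ∣ z - 1 := by
  have e : z ^ 2 - 1 = (z + 1) * (z - 1) := by ring
  rw [e]
  refine ⟨fun h => ?_, fun h => h.mul_left _⟩
  have hcop : IsCoprime (9 : Ei) (z + 1) := by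
    have h1 : IsCoprime (3 : Ei) (z + 1) := by
      obtain ⟨t, ht⟩ := h3
      refine ⟨1 + t, -1, ?_⟩
      linear_combination -ht
    have h9 : (9 : Ei) = 3 ^ 2 := by norm_num
    rw [h9]
    exact h1.pow_left
  exact hcop.dvd_of_dvd_mul_left h

/-- the class of `ω ^ i z` -/
lemma ns_w {i : ZMod 3} {z : Ei} (h3 : (3 : Ei) ∣ z - 1) :
    NS (w ^ i.val * z) ↔ (i ≠ 0 ∨ ¬ ((9 : ℤ) ∣ nr z - 1 ∧ yq z = 0)) := by
  unfold NS
  rw [← nine_iff h3, ← nine_sq h3]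
  by_cases hi : i = 0
  · subst hi
    rw [ZMod.val_zero, pow_zero, one_mul]
    exact ⟨fun h => Or.inr h, fun h => h.resolve_left fun h => h rfl⟩
  · refine ⟨fun _ => Or.inl hi, fun _ h => hi ?_⟩
    have h1 : (3 : Ei) ∣ (w ^ i.val * z) ^ 2 - 1 := by
      have h9 : (9 : Ei) = 3 * 3 := by norm_num
      rw [h9] at h
      exact (dvd_mul_right _ _).trans h
    have h2 : (3 : Ei) ∣ z ^ 2 - 1 := by
      have e : z ^ 2 - 1 = (z + 1) * (z - 1) := by ring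
      rw [e]
      exact h3.mul_left _
    have h4 : (3 : Ei) ∣ w ^ (-i).val - w ^ (0 : ZMod 3).val := by
      rw [ZMod.val_zero, pow_zero, ← w_sq]
      have e : ((w : Ei) ^ i.val) ^ 2 - 1 = ((w ^ i.val * z) ^ 2 - 1) -
          (w ^ i.val) ^ 2 * (z ^ 2 - 1) := by ring
      rw [e]
      exact dvd_sub h1 (h2.mul_left _)
    exact neg_eq_zero.1 (w_pow_inj h4)

/-- the class of `± √-3 ^ a z` -/
lemma ns_lam (b : Bool) (a : ℕ) (z : Ei) : NS (sg b * (lam ^ a * z)) ↔ (a = 0 → NS z) := by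
  unfold NS
  by_cases ha : a = 0
  · subst ha
    have e : (sg b * (lam ^ 0 * z)) ^ 2 = z ^ 2 := by
      have := sg_mul b
      linear_combination z ^ 2 * this
    rw [e]
    exact ⟨fun h _ => h, fun h => h rfl⟩
  · refine ⟨fun _ h => absurd h ha, fun _ h => ?_⟩
    have h1 : lam ∣ sg b * (lam ^ a * z) := ((dvd_pow_self lam ha).mul_right _).mul_left _
    have h2 : lam ∣ (sg b * (lam ^ a * z)) ^ 2 := h1.trans (dvd_pow_self _ two_ne_zero)
    have h9 : (9 : Ei) = 3 * 3 := by norm_num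
    rw [h9] at h
    have h3 : lam ∣ (sg b * (lam ^ a * z)) ^ 2 - 1 :=
      (lam_dvd_three.trans (dvd_mul_right _ _)).trans h
    have h4 := dvd_sub h2 h3
    rw [sub_sub_cancel] at h4
    exact prime_lam.not_isUnit (isUnit_of_dvd_one h4)

lemma pp_ev : ∀ᶠ X : ℕ in atTop, (0 : ℝ) < PP X := (PP_top den3).eventually_gt_atTop 0

lemma lim_PP : Tendsto (fun X : ℕ => (PP X : ℝ) / (PP X : ℝ)) atTop (𝓝 1) := by
  refine (tendsto_congr' ?_).2 tendsto_const_nhds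
  filter_upwards [pp_ev] with X hX
  exact div_self hX.ne'

lemma lim_ne : Tendsto (fun X : ℕ => ({z : Ei | nr z ≤ X ∧ ClP z ∧ z ≠ 1}.ncard : ℝ) /
    (PP X : ℝ)) atTop (𝓝 1) := by
  have h0 : Tendsto (fun X : ℕ => 1 / (PP X : ℝ)) atTop (𝓝 0) := by
    simp only [one_div]
    exact tendsto_inv_atTop_zero.comp (PP_top den3)
  have h1 := lim_PP.sub h0
  rw [sub_zero] at h1
  refine h1.congr' ?_
  filter_upwards [eventually_ge_atTop 1] with X hX
  have h2 := card_ne_one (fun _ => True) X hX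
  simp only [or_true, and_true] at h2
  have h3 : PP X = {z : Ei | nr z ≤ X ∧ ClP z ∧ z ≠ 1}.ncard + 1 := h2
  rw [h3, ← sub_div]
  push_cast
  ring

lemma lim_n9 : Tendsto (fun X : ℕ => ({z : Ei | nr z ≤ X ∧ ClP z ∧
    ¬ ((9 : ℤ) ∣ nr z - 1 ∧ yq z = 0)}.ncard : ℝ) / (PP X : ℝ)) atTop (𝓝 (8 / 9)) := by
  have h0 := lim_PP.sub (den9 0)
  have e : (1 - 1 / 9 : ℝ) = 8 / 9 := by norm_num
  rw [e] at h0
  refine h0.congr fun X => ?_
  rw [← sub_div]
  congr 1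
  have h2 : {D : Ei | nr D ≤ X ∧ ClP D} =
      {D : Ei | nr D ≤ X ∧ ClP D ∧ ((9 : ℤ) ∣ nr D - 1 ∧ yq D = 0)} ∪
        {D : Ei | nr D ≤ X ∧ ClP D ∧ ¬ ((9 : ℤ) ∣ nr D - 1 ∧ yq D = 0)} := by
    ext D
    simp only [Set.mem_union, Set.mem_ofPred_eq]
    tauto
  have h3 : Disjoint {D : Ei | nr D ≤ X ∧ ClP D ∧ ((9 : ℤ) ∣ nr D - 1 ∧ yq D = 0)}
      {D : Ei | nr D ≤ X ∧ ClP D ∧ ¬ ((9 : ℤ) ∣ nr D - 1 ∧ yq D = 0)} := by
    rw [Set.disjoint_left]
    rintro D ⟨-, -, h4⟩ ⟨-, -, h5⟩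
    exact h5 h4
  have h4 := Set.ncard_union_eq h3 ((fin_nr X).subset fun z hz => hz.1)
    ((fin_nr X).subset fun z hz => hz.1)
  rw [← h2] at h4
  have h5 : (PP X : ℝ) = (({D : Ei | nr D ≤ X ∧ ClP D}.ncard : ℕ) : ℝ) := rfl
  rw [h5, h4]
  push_cast
  ring

/-- the elements prime to three -/
lemma lim_ns0 : Tendsto (fun X : ℕ => ({z : Ei | nr z ≤ X ∧ FamE z ∧ NS z}.ncard : ℝ) /
    (FC X : ℝ)) atTop (𝓝 (26 / 27)) := by
  have h := fam_lim' NS (c := fun i => if i = 0 then 8 / 9 else 1) (fun i => by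
    by_cases hi : i = 0
    · rw [if_pos hi]
      refine lim_n9.congr fun X => ?_
      congr 3
      ext z
      refine and_congr_right fun _ => and_congr_right fun hz => ?_
      rw [ns_w hz.1]
      constructor
      · refine fun h => ⟨fun h1 => h ?_, Or.inr h⟩
        subst h1
        refine ⟨?_, yq_one'⟩
        have : nr (1 : Ei) = 1 := by decide
        rw [this, sub_self]
        exact dvd_zero _
      · exact fun h => h.2.resolve_left fun h1 => h1 hi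
    · rw [if_neg hi]
      refine lim_ne.congr fun X => ?_
      congr 3
      ext z
      refine and_congr_right fun _ => and_congr_right fun hz => ?_
      rw [ns_w hz.1]
      exact ⟨fun h => ⟨h, Or.inl hi⟩, fun h => h.1⟩)
  have e : (((if (0 : ZMod 3) = 0 then 8 / 9 else 1) + (if (1 : ZMod 3) = 0 then 8 / 9 else 1) +
      (if (2 : ZMod 3) = 0 then 8 / 9 else 1)) / 3 : ℝ) = 26 / 27 := by
    rw [if_pos rfl, if_neg (by decide), if_neg (by decide)]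
    norm_num
  rw [e] at h
  exact h

lemma fc_one (P : Ei → Prop) (hP : ∀ z, P z) :
    Tendsto (fun X : ℕ => ({z : Ei | nr z ≤ X ∧ FamE z ∧ P z}.ncard : ℝ) /
    (FC X : ℝ)) atTop (𝓝 1) := by
  refine (tendsto_congr' ?_).2 tendsto_const_nhds
  filter_upwards [fc_top.eventually_gt_atTop 0] with X hX
  have e : {z : Ei | nr z ≤ X ∧ FamE z ∧ P z} = {z : Ei | nr z ≤ X ∧ FamE z} := by
    ext z
    exact ⟨fun h => ⟨h.1, h.2.1⟩, fun h => ⟨h.1, h.2, hP z⟩⟩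
  rw [e]
  exact div_self hX.ne'

/-- the proportion of the `D` for which the place above three does not split -/
theorem lim_ns : Tendsto (fun X : ℕ => ({D : Ei | nr D ≤ X ∧ CFam D ∧ NS D}.ncard : ℝ) /
    ({D : Ei | nr D ≤ X ∧ CFam D}.ncard : ℝ)) atTop (𝓝 (38 / 39)) := by
  have h := lim3 (G0 := fun X => {z : Ei | nr z ≤ X ∧ FamE z ∧ ((0 : ℕ) = 0 → NS z)}.ncard)
    (α := 26 / 27) (by
      simp only [forall_const]
      exact lim_ns0) (fc_one (fun z => (1 : ℕ) = 0 → NS z) fun z h => absurd h one_ne_zero)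
    (fc_one (fun z => (2 : ℕ) = 0 → NS z) fun z h => absurd h two_ne_zero)
  have e : ((26 / 27 + 1 / 3 + 1 / 9) / (13 / 9) : ℝ) = 38 / 39 := by norm_num
  rw [e] at h
  refine h.congr fun X => ?_
  rw [card_cfam, count' NS (fun a z => a = 0 → NS z) (fun b a z _ _ => ns_lam b a z) X]

/-! ### the criterion -/

/-- the criterion for `D` -/
def CrE (D : Ei) : Prop := ∃ (b : Bool) (a : ℕ) (z : Ei), a < 3 ∧ FamE z ∧
  D = sg b * (lam ^ a * z) ∧ CrF (a : ZMod 3) z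

theorem ex_P : ∃ P : Ei → Prop, (∀ D, P D → CrE D) ∧
    Tendsto (fun X : ℕ => ({D : Ei | nr D ≤ X ∧ CFam D ∧ P D}.ncard : ℝ) /
      ({D : Ei | nr D ≤ X ∧ CFam D}.ncard : ℝ)) atTop (𝓝 (152 / 117 * c9)) ∧
    ∀ a : ℕ, a = 1 ∨ a = 2 → Tendsto (fun X : ℕ =>
      ({D : Ei | nr D ≤ X ∧ CFam D ∧ ((lam ^ a ∣ D ∧ ¬ lam ^ (a + 1) ∣ D) ∧ P D)}.ncard : ℝ) /
        ({D : Ei | nr D ≤ X ∧ CFam D ∧ (lam ^ a ∣ D ∧ ¬ lam ^ (a + 1) ∣ D)}.ncard : ℝ)) atTop
          (𝓝 (4 / 3 * c9)) := by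
  choose T hT1 hT2 using ex_TF
  obtain ⟨P, hP⟩ : ∃ P : Ei → Prop, ∀ D, P D ↔ ∃ (b : Bool) (a : ℕ) (z : Ei), a < 3 ∧ FamE z ∧
    D = sg b * (lam ^ a * z) ∧ T (a : ZMod 3) z := ⟨_, fun _ => Iff.rfl⟩
  have hPT : ∀ (b : Bool) (a : ℕ) (z : Ei), a < 3 → FamE z →
      (P (sg b * (lam ^ a * z)) ↔ T (a : ZMod 3) z) := by
    intro b a z ha hz
    rw [hP]
    constructor
    · rintro ⟨b', a', z', -, hz', he, hT⟩
      obtain ⟨-, rfl, rfl⟩ := uniq hz hz' he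
      exact hT
    · exact fun hT => ⟨b, a, z, ha, hz, rfl, hT⟩
  have l0 : Tendsto (fun X : ℕ => ({D : Ei | nr D ≤ X ∧ FamE D ∧ T ((0 : ℕ) : ZMod 3) D}.ncard : ℝ) /
      (FC X : ℝ)) atTop (𝓝 (104 / 81 * c9)) := by
    have h := hT2 ((0 : ℕ) : ZMod 3)
    rw [if_pos (by decide)] at h
    exact h
  have l1 : Tendsto (fun X : ℕ => ({D : Ei | nr D ≤ X ∧ FamE D ∧ T ((1 : ℕ) : ZMod 3) D}.ncard : ℝ) /
      (FC X : ℝ)) atTop (𝓝 (4 / 3 * c9)) := by
    have h := hT2 ((1 : ℕ) : ZMod 3)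
    rw [if_neg (by decide)] at h
    exact h
  have l2 : Tendsto (fun X : ℕ => ({D : Ei | nr D ≤ X ∧ FamE D ∧ T ((2 : ℕ) : ZMod 3) D}.ncard : ℝ) /
      (FC X : ℝ)) atTop (𝓝 (4 / 3 * c9)) := by
    have h := hT2 ((2 : ℕ) : ZMod 3)
    rw [if_neg (by decide)] at h
    exact h
  refine ⟨P, fun D hD => ?_, ?_, ?_⟩
  · obtain ⟨b, a, z, h1, h2, h3, h4⟩ := (hP D).1 hD
    exact ⟨b, a, z, h1, h2, h3, hT1 _ _ h4⟩
  · have h := lim3 l0 l1 l2
    have e : (104 / 81 * c9 + 4 / 3 * c9 / 3 + 4 / 3 * c9 / 9) / (13 / 9) = 152 / 117 * c9 := by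
      ring
    rw [e] at h
    refine h.congr fun X => ?_
    rw [card_cfam, count' P (fun a z => T (a : ZMod 3) z) hPT X]
  · intro a ha
    have hex : ∀ (b : Bool) (a' : ℕ) (z : Ei), FamE z →
        ((lam ^ a ∣ sg b * (lam ^ a' * z) ∧ ¬ lam ^ (a + 1) ∣ sg b * (lam ^ a' * z)) ↔
          a' = a) := by
      intro b a' z hz
      have hl := fam_lam hz
      have key : ∀ m : ℕ, lam ^ m ∣ sg b * (lam ^ a' * z) ↔ m ≤ a' := by
        intro m
        rw [(sg_unit b).dvd_mul_left]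
        constructor
        · intro h
          by_contra hlt
          push Not at hlt
          obtain ⟨c, rfl⟩ : ∃ c, m = a' + (c + 1) := ⟨m - a' - 1, by omega⟩
          rw [pow_add] at h
          have h5 := (mul_dvd_mul_iff_left (pow_ne_zero a' prime_lam.ne_zero)).1 h
          exact hl ((dvd_pow_self lam (Nat.succ_ne_zero c)).trans h5)
        · exact fun h => (pow_dvd_pow lam h).mul_right _
      rw [key, key]
      omega
    have hc := count' (fun D => (lam ^ a ∣ D ∧ ¬ lam ^ (a + 1) ∣ D)) (fun a' _ => a' = a)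
      (fun b a' z _ hz => hex b a' z hz)
    have hn := count' (fun D => (lam ^ a ∣ D ∧ ¬ lam ^ (a + 1) ∣ D) ∧ P D)
      (fun a' z => a' = a ∧ T (a' : ZMod 3) z) (fun b a' z ha' hz => by
        rw [hex b a' z hz]
        exact and_congr_right fun h => hPT b a' z ha' hz)
    simp only [hc, hn]
    rcases ha with rfl | rfl
    · refine (l1.comp div3_top).congr fun X => ?_
      simp only [Function.comp_apply, false_and, and_false, true_and,
        Set.ofPred_false, Set.ncard_empty, zero_add, add_zero, and_true, OfNat.ofNat_ne_one,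
        zero_ne_one]
      push_cast
      rw [mul_div_mul_left _ _ (two_ne_zero)]
      rfl
    · refine ((l2.comp div3_top).comp div3_top).congr fun X => ?_
      simp only [Function.comp_apply, false_and, and_false, true_and,
        Set.ofPred_false, Set.ncard_empty, zero_add, add_zero, and_true,
        OfNat.zero_ne_ofNat, OfNat.one_ne_ofNat]
      push_cast
      rw [mul_div_mul_left _ _ (two_ne_zero)]
      rfl

/-- the criterion excludes the class in which the place above three splits -/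
theorem ns_of {D : Ei} (h : CrE D) : NS D := by
  obtain ⟨b, a, z, ha, hz, rfl, i, z₀, rfl, n, π, e, hdt, rfl, hk⟩ := h
  rw [ns_lam]
  rintro rfl
  have h3 : (3 : Ei) ∣ pD π e - 1 := (Pool.Agent.Y703.CT.pD_prim hdt).1
  rw [ns_w h3]
  by_contra hno
  push Not at hno
  obtain ⟨rfl, h9, hy⟩ := hno
  have h4 := (nq_zero h3).2 h9
  have h5 : ∑ k, e k * nq (π k) = 0 := by
    have := nq_prod hdt.pq (fun k => (e k).val) Finset.univ
    rw [← h4]
    unfold pD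
    rw [this]
    exact Finset.sum_congr rfl fun k _ => by rw [ZMod.natCast_zmod_val]
  have h6 : ∑ k, e k * yq (π k) = 0 := by
    have := yq_prod hdt.pq (fun k => (e k).val) Finset.univ
    rw [← hy]
    unfold pD
    rw [this]
    exact Finset.sum_congr rfl fun k _ => by rw [ZMod.natCast_zmod_val]
  have h7 := hk (fun _ => 1) (fun j => by
    simp only [sub_self, mul_zero, Finset.sum_const_zero]
    unfold qG
    push_cast
    ring) (by simpa only [mul_one] using h5) (by simpa only [mul_one] using h6) 0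
  exact absurd h7 (by decide)

/-- the family has positive density -/
theorem many' : ∃ b : ℝ, 0 < b ∧ ∃ X₀ : ℕ, ∀ X : ℕ, X₀ ≤ X →
    b * X ≤ ({D : Ei | nr D ≤ X ∧ CFam D}.ncard : ℝ) := by
  obtain ⟨c, hc, X₀, h⟩ := Pool.Agent.D0H69.L3K.many
  have h1 := (PP_top den3).eventually_ge_atTop 2
  rw [eventually_atTop] at h1
  obtain ⟨X₁, h1⟩ := h1
  refine ⟨c, hc, max (max X₀ X₁) 1, fun X hX => ?_⟩
  have h2 := h X ((le_max_left _ _).trans ((le_max_left _ _).trans hX))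
  have h3 := h1 X ((le_max_right _ _).trans ((le_max_left _ _).trans hX))
  have h4 := fc_eq ((le_max_right _ _).trans hX)
  have h5 : ((FC X : ℕ) : ℝ) ≤ ({D : Ei | nr D ≤ X ∧ CFam D}.ncard : ℝ) := by
    rw [card_cfam]
    exact_mod_cast (show FC X ≤ 2 * (FC X + FC (X / 3) + FC (X / 3 / 3)) by omega)
  have h6 : (PP X : ℝ) = (({D : Ei | nr D ≤ X ∧ ClP D}.ncard : ℕ) : ℝ) := rfl
  rw [← h6] at h2
  linarith

/-- from the limits to lower bounds -/
theorem at_least {A B C : ℕ → ℕ} {L b : ℝ} (h : Tendsto (fun X => (A X : ℝ) / (B X : ℝ)) atTop (𝓝 L))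
    (hb : b < L) (hAC : ∀ X, A X ≤ C X) : ∀ᶠ X in atTop, b * (B X : ℝ) ≤ (C X : ℝ) := by
  filter_upwards [(tendsto_order.1 h).1 _ hb] with X hX
  have h1 : (A X : ℝ) ≤ (C X : ℝ) := by exact_mod_cast hAC X
  by_cases hB : (B X : ℝ) = 0
  · rw [hB, mul_zero]
    exact Nat.cast_nonneg _
  · have h2 : (0 : ℝ) < (B X : ℝ) := lt_of_le_of_ne (Nat.cast_nonneg _) (Ne.symm hB)
    rw [lt_div_iff₀ h2] at hX
    linarith

/-- **The lower bounds.** -/
theorem bounds {Q : Ei → Prop} (hQ : ∀ D, CFam D → CrE D → Q D) :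
    (∀ b : ℝ, b < 152 / 117 * c9 → ∀ᶠ X : ℕ in atTop,
      b * ({D : Ei | nr D ≤ X ∧ CFam D}.ncard : ℝ) ≤
        ({D : Ei | nr D ≤ X ∧ CFam D ∧ Q D}.ncard : ℝ)) ∧
    (∀ b : ℝ, b < 4 / 3 * c9 → ∀ᶠ X : ℕ in atTop,
      b * ({D : Ei | nr D ≤ X ∧ CFam D ∧ NS D}.ncard : ℝ) ≤
        ({D : Ei | nr D ≤ X ∧ CFam D ∧ (NS D ∧ Q D)}.ncard : ℝ)) ∧
    (∀ a : ℕ, a = 1 ∨ a = 2 → ∀ b : ℝ, b < 4 / 3 * c9 → ∀ᶠ X : ℕ in atTop,
      b * ({D : Ei | nr D ≤ X ∧ CFam D ∧ (lam ^ a ∣ D ∧ ¬ lam ^ (a + 1) ∣ D)}.ncard : ℝ) ≤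
        ({D : Ei | nr D ≤ X ∧ CFam D ∧ ((lam ^ a ∣ D ∧ ¬ lam ^ (a + 1) ∣ D) ∧ Q D)}.ncard : ℝ)) := by
  obtain ⟨P, hP, h1, h2⟩ := ex_P
  refine ⟨fun b hb => at_least h1 hb fun X => ?_, fun b hb => ?_, fun a ha b hb =>
    at_least (h2 a ha) hb fun X => ?_⟩
  · exact Set.ncard_le_ncard (fun D hD => ⟨hD.1, hD.2.1, hQ D hD.2.1 (hP D hD.2.2)⟩)
      ((fin_nr X).subset fun z hz => hz.1)
  · have h3 := h1.div lim_ns (by norm_num)
    have e : 152 / 117 * c9 / (38 / 39) = 4 / 3 * c9 := by ring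
    rw [e] at h3
    have h4 : Tendsto (fun X : ℕ => ({D : Ei | nr D ≤ X ∧ CFam D ∧ P D}.ncard : ℝ) /
        ({D : Ei | nr D ≤ X ∧ CFam D ∧ NS D}.ncard : ℝ)) atTop (𝓝 (4 / 3 * c9)) := by
      refine h3.congr' ?_
      have h5 : ∀ᶠ X : ℕ in atTop, ({D : Ei | nr D ≤ X ∧ CFam D}.ncard : ℝ) ≠ 0 := by
        filter_upwards [lim_ns.eventually_ne (show (38 / 39 : ℝ) ≠ 0 by norm_num)] with X hX
        exact fun h => hX (by rw [h, div_zero])
      filter_upwards [h5] with X hX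
      simp only [Pi.div_apply]
      rw [div_div_div_cancel_right₀ hX]
    exact at_least h4 hb fun X => Set.ncard_le_ncard
      (fun D hD => ⟨hD.1, hD.2.1, ns_of (hP D hD.2.2), hQ D hD.2.1 (hP D hD.2.2)⟩)
      ((fin_nr X).subset fun z hz => hz.1)
  · exact Set.ncard_le_ncard (fun D hD => ⟨hD.1, hD.2.1, hD.2.2.1, hQ D hD.2.1 (hP D hD.2.2.2)⟩)
      ((fin_nr X).subset fun z hz => hz.1)

end Pool.Agent.D0H50.SC
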